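import Pool.Agent.Lib.MP_4a15bf_mp.h5.Rot

section
/-!
The Laplace-Beltrami operator in terms of the rotation fields.
-/
set_option autoImplicit false

namespace Pool.Agent.Lib.MP_4a15bf_mp

open MeasureTheory Set Filter Topology
open scoped ENNReal ContDiff RealInnerProductSpace Laplacian InnerProductSpace

variable {n : ℕ}

/-- Standard basis vector. -/
noncomputable abbrev ev (i : Fin (n + 1)) : E n := EuclideanSpace.single i (1 : ℝ)

/-- The rotation field `x ↦ x_i e_j - x_j e_i`. -/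
noncomputable def Jf (i j : Fin (n + 1)) : E n →L[ℝ] E n :=
  (EuclideanSpace.proj i : E n →L[ℝ] ℝ).smulRight (ev j) -
    (EuclideanSpace.proj j : E n →L[ℝ] ℝ).smulRight (ev i)

lemma Jf_apply (i j : Fin (n + 1)) (x : E n) : Jf i j x = x i • ev j - x j • ev i := by
  simp [Jf]

lemma inner_Jf (i j : Fin (n + 1)) (x : E n) : ⟪x, Jf i j x⟫ = 0 := by
  rw [Jf_apply, inner_sub_right, inner_smul_right, inner_smul_right,
    EuclideanSpace.inner_single_right, EuclideanSpace.inner_single_right]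
  simp
  ring

lemma sum_ev (x : E n) : ∑ i, x i • (ev i : E n) = x := by
  ext k
  simp [Finset.sum_apply, Pi.single_apply]

lemma apply_eq_sum (l : E n →L[ℝ] ℝ) (x : E n) : l x = ∑ i, x i * l (ev i) := by
  conv_lhs => rw [← sum_ev x]
  simp [map_sum]

lemma sum_lin (l : E n →L[ℝ] ℝ) (x : E n) :
    (1 / 2 : ℝ) * ∑ i, ∑ j, l (Jf i j (Jf i j x)) = - (n : ℝ) * l x := by
  have h : ∀ i j : Fin (n + 1), l (Jf i j (Jf i j x)) =
      ((if i = j then x i * l (ev j) else 0) - x j * l (ev j)) -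
        (x i * l (ev i) - (if i = j then x j * l (ev i) else 0)) := by
    intro i j
    rw [Jf_apply i j (Jf i j x), Jf_apply i j x]
    by_cases hij : i = j
    · subst hij; simp
    · have hji : j ≠ i := fun h => hij h.symm
      simp [hij, hji]
  have h1 : ∀ i, ∑ j, l (Jf i j (Jf i j x)) = (x i * l (ev i) - l x) -
      ((n + 1 : ℝ) * (x i * l (ev i)) - x i * l (ev i)) := by
    intro i
    simp only [h, Finset.sum_sub_distrib, Finset.sum_ite_eq, Finset.mem_univ, if_true,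
      Finset.sum_const, Finset.card_univ, Fintype.card_fin, nsmul_eq_mul, ← apply_eq_sum]
    push_cast
    ring
  simp only [h1, Finset.sum_sub_distrib, ← Finset.mul_sum, ← apply_eq_sum, Finset.sum_const,
    Finset.card_univ, Fintype.card_fin, nsmul_eq_mul]
  push_cast
  ring

lemma sum_quad (H : E n →L[ℝ] E n →L[ℝ] ℝ) (x : E n) :
    (1 / 2 : ℝ) * ∑ i, ∑ j, H (Jf i j x) (Jf i j x) =
      ‖x‖ ^ 2 * ∑ k, H (ev k) (ev k) - H x x := by
  have hn : ‖x‖ ^ 2 = ∑ i, x i ^ 2 := by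
    rw [EuclideanSpace.norm_sq_eq]; simp
  have hH : H x x = ∑ i, ∑ j, x i * x j * H (ev i) (ev j) := by
    have h0 : H x = ∑ i, x i • H (ev i) := by
      conv_lhs => rw [← sum_ev x]
      simp [map_sum]
    rw [h0]
    simp only [ContinuousLinearMap.coe_sum', Finset.sum_apply, ContinuousLinearMap.coe_smul', Pi.smul_apply, smul_eq_mul]
    refine Finset.sum_congr rfl fun i _ => ?_
    rw [apply_eq_sum (H (ev i)) x, Finset.mul_sum]
    exact Finset.sum_congr rfl fun j _ => by ring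
  have hH' : H x x = ∑ i, ∑ j, x i * x j * H (ev j) (ev i) := by
    rw [hH, Finset.sum_comm]
    exact Finset.sum_congr rfl fun i _ => Finset.sum_congr rfl fun j _ => by ring
  have h : ∀ i j : Fin (n + 1), H (Jf i j x) (Jf i j x) =
      (x i ^ 2 * H (ev j) (ev j) + x j ^ 2 * H (ev i) (ev i)) -
        (x i * x j * H (ev j) (ev i) + x i * x j * H (ev i) (ev j)) := by
    intro i j
    rw [Jf_apply]
    simp only [map_sub, map_smul, ContinuousLinearMap.coe_sub', Pi.sub_apply, ContinuousLinearMap.coe_smul', Pi.smul_apply,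
      smul_eq_mul]
    ring
  have e1 : ∑ i, ∑ j, x i ^ 2 * H (ev j) (ev j) = ‖x‖ ^ 2 * ∑ k, H (ev k) (ev k) := by
    rw [hn, Finset.sum_mul_sum]
  have e2 : ∑ i, ∑ j, x j ^ 2 * H (ev i) (ev i) = ‖x‖ ^ 2 * ∑ k, H (ev k) (ev k) := by
    rw [Finset.sum_comm, e1]
  simp only [h, Finset.sum_sub_distrib, Finset.sum_add_distrib]
  rw [e1, e2, ← hH, ← hH']
  ring

/-- The operator `(1/2) ∑_{i,j} L_{ij}²`. -/
noncomputable def Lap (F : E n → ℝ) (x : E n) : ℝ :=
  (1 / 2 : ℝ) * ∑ i, ∑ j, Lie (Jf i j) (Lie (Jf i j) F) x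

lemma Lie_Lie (J : E n →L[ℝ] E n) {F : E n → ℝ} {x : E n} (hF : ContDiffAt ℝ 2 F x) :
    Lie J (Lie J F) x = fderiv ℝ (fderiv ℝ F) x (J x) (J x) + fderiv ℝ F x (J (J x)) := by
  have h1 : DifferentiableAt ℝ (fderiv ℝ F) x :=
    (hF.fderiv_right (m := 1) (by norm_num)).differentiableAt (by norm_num)
  have h2 : HasFDerivAt (Lie J F) _ x :=
    h1.hasFDerivAt.clm_apply (J.hasFDerivAt (x := x))
  unfold Lie at *
  rw [h2.fderiv]
  simp [add_comm]

lemma Lap_eq {F : E n → ℝ} {x : E n} (hF : ContDiffAt ℝ 2 F x) :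
    Lap F x = ‖x‖ ^ 2 * ∑ k, fderiv ℝ (fderiv ℝ F) x (ev k) (ev k)
      - fderiv ℝ (fderiv ℝ F) x x x - (n : ℝ) * fderiv ℝ F x x := by
  unfold Lap
  simp only [Lie_Lie _ hF, Finset.sum_add_distrib, mul_add]
  rw [sum_quad, sum_lin]
  ring

lemma extend_smul (u : Sph n → ℝ) {c : ℝ} (hc : 0 < c) (x : E n) :
    extend u (c • x) = extend u x := by
  unfold extend
  by_cases hx : x = 0
  · subst hx; simp
  · have hcx : c • x ≠ 0 := smul_ne_zero hc.ne' hx
    rw [dif_neg hcx, dif_neg hx]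
    congr 2
    rw [norm_smul, smul_smul, Real.norm_of_nonneg hc.le, mul_inv, mul_assoc, mul_comm ‖x‖⁻¹ c,
      ← mul_assoc, inv_mul_cancel₀ hc.ne', one_mul]

lemma extend_coe (u : Sph n → ℝ) (x : Sph n) : extend u x = u x := by
  have hx : ‖(x : E n)‖ = 1 := by simpa using x.2
  have hx0 : (x : E n) ≠ 0 := by
    intro h; rw [h] at hx; simp at hx
  unfold extend
  rw [dif_neg hx0]
  congr 1
  apply Subtype.ext
  simp [hx]

lemma coe_ne_zero (x : Sph n) : (x : E n) ≠ 0 := by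
  have hx : ‖(x : E n)‖ = 1 := by simpa using x.2
  intro h; rw [h] at hx; simp at hx

lemma norm_coe (x : Sph n) : ‖(x : E n)‖ = 1 := by simpa using x.2

lemma IsSmooth.contDiffAt {u : Sph n → ℝ} (hu : IsSmooth u) {x : E n} (hx : x ≠ 0) :
    ContDiffAt ℝ ∞ (extend u) x :=
  (hu x hx).contDiffAt (isOpen_compl_singleton.mem_nhds hx)

lemma fderiv_extend_self {u : Sph n → ℝ} (hu : IsSmooth u) {x : E n} (hx : x ≠ 0) :
    fderiv ℝ (extend u) x x = 0 := by
  have h1 : HasFDerivAt (extend u) (fderiv ℝ (extend u) x) ((1 : ℝ) • x) := by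
    rw [one_smul]; exact ((hu.contDiffAt hx).differentiableAt (by simp)).hasFDerivAt
  have h2 : HasDerivAt (fun t : ℝ => extend u (t • x)) (fderiv ℝ (extend u) x x) 1 := by
    have h3 : HasDerivAt (fun t : ℝ => t • x) x 1 := by
      simpa using (hasDerivAt_id (1 : ℝ)).smul_const x
    exact h1.comp_hasDerivAt 1 h3
  have h4 : (fun t : ℝ => extend u (t • x)) =ᶠ[𝓝 1] fun _ => extend u x := by
    filter_upwards [lt_mem_nhds (zero_lt_one (α := ℝ))] with t ht
    exact extend_smul u ht x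
  have h5 : HasDerivAt (fun t : ℝ => extend u (t • x)) 0 1 :=
    (hasDerivAt_const (1 : ℝ) (extend u x)).congr_of_eventuallyEq h4
  exact h2.unique h5

lemma fderiv_fderiv_extend_self {u : Sph n → ℝ} (hu : IsSmooth u) {x : E n} (hx : x ≠ 0) :
    fderiv ℝ (fderiv ℝ (extend u)) x x x = 0 := by
  have hd : DifferentiableAt ℝ (fderiv ℝ (extend u)) x :=
    ((hu.contDiffAt hx).fderiv_right (m := 1) (by norm_cast)).differentiableAt (by norm_num)
  have h1 : HasFDerivAt (fun y => fderiv ℝ (extend u) y y) _ x :=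
    hd.hasFDerivAt.clm_apply (hasFDerivAt_id x)
  have h2 : (fun y => fderiv ℝ (extend u) y y) =ᶠ[𝓝 x] fun _ => 0 := by
    filter_upwards [isOpen_compl_singleton.mem_nhds hx] with y hy
    exact fderiv_extend_self hu hy
  have h3 : HasFDerivAt (fun y => fderiv ℝ (extend u) y y) (0 : E n →L[ℝ] ℝ) x :=
    (hasFDerivAt_const (0 : ℝ) x).congr_of_eventuallyEq h2
  have h4 := congrArg (fun l : E n →L[ℝ] ℝ => l x) (h1.unique h3)
  simpa [fderiv_extend_self hu hx] using h4

/-- Derivatives along rotation fields depend only on the restriction to the sphere. -/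
lemma Lie_congr {J : E n →L[ℝ] E n} (hJ : ∀ x, ⟪x, J x⟫ = 0) {F G : E n → ℝ}
    (h : ∀ x : Sph n, F x = G x) (x : Sph n) (hF : DifferentiableAt ℝ F x)
    (hG : DifferentiableAt ℝ G x) : Lie J F x = Lie J G x := by
  have key : ∀ {K : E n → ℝ}, DifferentiableAt ℝ K x →
      HasDerivAt (fun θ => K (flow J θ x)) (Lie J K x) 0 := by
    intro K hK
    have h1 : HasFDerivAt K (fderiv ℝ K x) (flow J 0 x) := by
      rw [flow_zero]; exact hK.hasFDerivAt
    have h2 := h1.comp_hasDerivAt (0 : ℝ) (hasDerivAt_flow J x 0)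
    rw [flow_zero] at h2
    exact h2
  have h3 : (fun θ => F (flow J θ x)) = fun θ => G (flow J θ x) := by
    funext θ
    have : flow J θ x ∈ Metric.sphere (0 : E n) 1 := by
      simp [norm_flow hJ]
    exact h ⟨_, this⟩
  have h4 := key hF
  rw [h3] at h4
  exact h4.unique (key hG)

lemma IsSmooth.contDiffAt_Lie {u : Sph n → ℝ} (hu : IsSmooth u) (J : E n →L[ℝ] E n) {x : E n}
    (hx : x ≠ 0) : ContDiffAt ℝ ∞ (Lie J (extend u)) x := by
  unfold Lie
  exact ((hu.contDiffAt hx).fderiv_right (m := ∞) (by simp)).clm_apply J.contDiff.contDiffAt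

lemma Lap_congr {u : Sph n → ℝ} (hu : IsSmooth u) {F : E n → ℝ} (hF : ContDiff ℝ ∞ F)
    (h : ∀ x : Sph n, u x = F x) (x : Sph n) : Lap (extend u) x = Lap F x := by
  unfold Lap
  congr 1
  refine Finset.sum_congr rfl fun i _ => Finset.sum_congr rfl fun j _ => ?_
  apply Lie_congr (inner_Jf i j)
  · intro y
    apply Lie_congr (inner_Jf i j)
    · intro z; rw [extend_coe, h]
    · exact (hu.contDiffAt (coe_ne_zero y)).differentiableAt (by simp)
    · exact hF.differentiable (by simp) _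
  · exact (hu.contDiffAt_Lie _ (coe_ne_zero x)).differentiableAt (by simp)
  · exact (contDiff_Lie _ hF).differentiable (by simp) _

/-- The Laplace-Beltrami operator through rotation fields. -/
lemma laplaceBeltrami_eq {u : Sph n → ℝ} (hu : IsSmooth u) {F : E n → ℝ} (hF : ContDiff ℝ ∞ F)
    (h : ∀ x : Sph n, u x = F x) (x : Sph n) : laplaceBeltrami u x = Lap F x := by
  rw [← Lap_congr hu hF h x]
  have hx := coe_ne_zero x
  have h2 : ContDiffAt ℝ 2 (extend u) (x : E n) := (hu.contDiffAt hx).of_le (by norm_cast)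
  rw [Lap_eq h2, norm_coe, fderiv_extend_self hu hx, fderiv_fderiv_extend_self hu hx]
  unfold laplaceBeltrami
  rw [InnerProductSpace.laplacian_eq_iteratedFDeriv_orthonormalBasis _
    (EuclideanSpace.basisFun (Fin (n + 1)) ℝ)]
  simp [iteratedFDeriv_two_apply]

/-- Every smooth function on the sphere is the restriction of a smooth function. -/
lemma IsSmooth.exists_ext {u : Sph n → ℝ} (hu : IsSmooth u) :
    ∃ F : E n → ℝ, ContDiff ℝ ∞ F ∧ ∀ x : Sph n, u x = F x := by
  refine ⟨fun x => Real.smoothTransition (4 * ‖x‖ ^ 2 - 1) * extend u x, ?_, ?_⟩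
  · rw [contDiff_iff_contDiffAt]
    intro x
    by_cases hx : x = 0
    · have h0 : (fun x : E n => Real.smoothTransition (4 * ‖x‖ ^ 2 - 1) * extend u x) =ᶠ[𝓝 x]
          fun _ => 0 := by
        subst hx
        have : Metric.ball (0 : E n) (1 / 2) ∈ 𝓝 (0 : E n) := Metric.ball_mem_nhds _ (by norm_num)
        filter_upwards [this] with y hy
        have hy' : ‖y‖ < 1 / 2 := by simpa using hy
        rw [Real.smoothTransition.zero_of_nonpos, zero_mul]
        nlinarith [norm_nonneg y]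
      exact contDiffAt_const.congr_of_eventuallyEq h0
    · have h1 : ContDiff ℝ ∞ fun x : E n => Real.smoothTransition (4 * ‖x‖ ^ 2 - 1) :=
        Real.smoothTransition.contDiff.comp
          ((contDiff_const.mul (contDiff_norm_sq ℝ)).sub contDiff_const)
      exact h1.contDiffAt.mul (hu.contDiffAt hx)
  · intro x
    simp only [norm_coe]
    rw [Real.smoothTransition.one_of_one_le (by norm_num), one_mul, extend_coe]

/-- The restriction of a smooth function is smooth on the sphere. -/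
lemma isSmooth_of_contDiff {F : E n → ℝ} (hF : ContDiff ℝ ∞ F) {u : Sph n → ℝ}
    (h : ∀ x : Sph n, u x = F x) : IsSmooth u := by
  have h1 : ∀ x ∈ ({0}ᶜ : Set (E n)), extend u x = F (‖x‖⁻¹ • x) := by
    intro x hx
    have hx' : x ≠ 0 := hx
    unfold extend
    rw [dif_neg hx', h]
  refine ContDiffOn.congr ?_ h1
  intro x hx
  have hx' : x ≠ 0 := hx
  have : ContDiffAt ℝ ∞ (fun y : E n => F (‖y‖⁻¹ • y)) x := by
    apply hF.contDiffAt.comp
    exact ((contDiffAt_norm ℝ hx').inv (norm_ne_zero_iff.2 hx')).smul contDiffAt_id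
  exact this.contDiffWithinAt

end Pool.Agent.Lib.MP_4a15bf_mp
end

section
/-!
Green's formula on the sphere, and zonal functions.
-/
set_option autoImplicit false

namespace Pool.Agent.Lib.MP_4a15bf_mp

open MeasureTheory Set Filter Topology
open scoped ENNReal ContDiff RealInnerProductSpace Laplacian InnerProductSpace

variable {n : ℕ}

lemma integrable_sph {F : E n → ℝ} (hF : Continuous F) :
    Integrable (fun x : Sph n => F x) (sigma n) :=
  (hF.comp continuous_subtype_val).integrable_of_hasCompactSupport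
    (HasCompactSupport.of_compactSpace _)

lemma Lie_mul (J : E n →L[ℝ] E n) {F G : E n → ℝ} (hF : ContDiff ℝ ∞ F) (hG : ContDiff ℝ ∞ G)
    (x : E n) : Lie J (fun y => F y * G y) x = Lie J F x * G x + F x * Lie J G x := by
  have h1 := (hF.differentiable (by simp) x).hasFDerivAt
  have h2 := (hG.differentiable (by simp) x).hasFDerivAt
  have h3 : fderiv ℝ (fun y => F y * G y) x = F x • fderiv ℝ G x + G x • fderiv ℝ F x :=
    (h1.mul h2).fderiv
  unfold Lie
  rw [h3]
  simp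
  ring

lemma green_Lie {J : E n →L[ℝ] E n} (hJ : ∀ x, ⟪x, J x⟫ = 0) {F G : E n → ℝ}
    (hF : ContDiff ℝ ∞ F) (hG : ContDiff ℝ ∞ G) :
    ∫ x : Sph n, G x * Lie J F x ∂(sigma n) = - ∫ x : Sph n, Lie J G x * F x ∂(sigma n) := by
  have h := integral_Lie hJ (hG.mul hF)
  have h1 : (fun x : Sph n => Lie J (fun y => G y * F y) x) =
      fun x : Sph n => Lie J G x * F x + G x * Lie J F x := by
    funext x; exact Lie_mul J hG hF x
  rw [h1, integral_add] at h
  · linarith
  · exact integrable_sph ((contDiff_Lie J hG).continuous.mul hF.continuous)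
  · exact integrable_sph (hG.continuous.mul (contDiff_Lie J hF).continuous)

/-- Green's formula. -/
lemma green {F G : E n → ℝ} (hF : ContDiff ℝ ∞ F) (hG : ContDiff ℝ ∞ G) :
    ∫ x : Sph n, G x * Lap F x ∂(sigma n) =
      - ∫ x : Sph n, (1 / 2 : ℝ) * ∑ i, ∑ j, Lie (Jf i j) G x * Lie (Jf i j) F x ∂(sigma n) := by
  have h1 : ∀ i j : Fin (n + 1), Integrable (fun x : Sph n =>
      Lie (Jf i j) G x * Lie (Jf i j) F x) (sigma n) := fun i j =>
    integrable_sph ((contDiff_Lie _ hG).continuous.mul (contDiff_Lie _ hF).continuous)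
  have h2 : ∀ i j : Fin (n + 1), Integrable (fun x : Sph n =>
      G x * Lie (Jf i j) (Lie (Jf i j) F) x) (sigma n) := fun i j =>
    integrable_sph (hG.continuous.mul (contDiff_Lie _ (contDiff_Lie _ hF)).continuous)
  rw [integral_const_mul, integral_finsetSum _ (fun i _ => integrable_finsetSum _ fun j _ => h1 i j)]
  have e : (fun x : Sph n => G x * Lap F x) = fun x : Sph n =>
      (1 / 2 : ℝ) * ∑ i, ∑ j, G x * Lie (Jf i j) (Lie (Jf i j) F) x := by
    funext x
    unfold Lap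
    simp only [Finset.mul_sum]
    refine Finset.sum_congr rfl fun i _ => Finset.sum_congr rfl fun j _ => by ring
  rw [e, integral_const_mul, integral_finsetSum _ (fun i _ => integrable_finsetSum _ fun j _ => h2 i j),
    ← mul_neg, ← Finset.sum_neg_distrib]
  congr 1
  refine Finset.sum_congr rfl fun i _ => ?_
  rw [integral_finsetSum _ (fun j _ => h1 i j), integral_finsetSum _ (fun j _ => h2 i j),
    ← Finset.sum_neg_distrib]
  refine Finset.sum_congr rfl fun j _ => ?_
  exact green_Lie (inner_Jf i j) (contDiff_Lie _ hF) hG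

lemma green_symm {F G : E n → ℝ} (hF : ContDiff ℝ ∞ F) (hG : ContDiff ℝ ∞ G) :
    ∫ x : Sph n, G x * Lap F x ∂(sigma n) = ∫ x : Sph n, F x * Lap G x ∂(sigma n) := by
  rw [green hF hG, green hG hF]
  congr 2
  funext x
  congr 1
  refine Finset.sum_congr rfl fun i _ => Finset.sum_congr rfl fun j _ => mul_comm _ _

lemma green_nonpos {F : E n → ℝ} (hF : ContDiff ℝ ∞ F) :
    ∫ x : Sph n, F x * Lap F x ∂(sigma n) ≤ 0 := by
  rw [green hF hF, neg_nonpos]
  refine integral_nonneg fun x => ?_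
  have : 0 ≤ ∑ i, ∑ j, Lie (Jf i j) F x * Lie (Jf i j) F (x : E n) :=
    Finset.sum_nonneg fun i _ => Finset.sum_nonneg fun j _ => mul_self_nonneg _
  positivity

/-- Zonal functions. -/
lemma Lie_zonal (J : E n →L[ℝ] E n) {φ : ℝ → ℝ} (hφ : ContDiff ℝ ∞ φ) (a x : E n) :
    Lie J (fun y => φ ⟪a, y⟫) x = deriv φ ⟪a, x⟫ * ⟪a, J x⟫ := by
  have h1 : HasFDerivAt (fun y : E n => ⟪a, y⟫) (innerSL ℝ a) x := (innerSL ℝ a).hasFDerivAt
  have h2 : HasDerivAt φ (deriv φ ⟪a, x⟫) ⟪a, x⟫ := (hφ.differentiable (by simp) _).hasDerivAt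
  have h3 := h2.comp_hasFDerivAt x h1
  unfold Lie
  have : fderiv ℝ (fun y => φ ⟪a, y⟫) x = deriv φ ⟪a, x⟫ • innerSL ℝ a := h3.fderiv
  rw [this]
  simp

lemma contDiff_zonal {φ : ℝ → ℝ} (hφ : ContDiff ℝ ∞ φ) (a : E n) :
    ContDiff ℝ ∞ fun y : E n => φ ⟪a, y⟫ :=
  hφ.comp (innerSL ℝ a).contDiff

lemma contDiff_deriv {φ : ℝ → ℝ} (hφ : ContDiff ℝ ∞ φ) : ContDiff ℝ ∞ (deriv φ) :=
  ((contDiff_infty_iff_deriv).1 hφ).2

lemma Lie_Lie_zonal (J : E n →L[ℝ] E n) {φ : ℝ → ℝ} (hφ : ContDiff ℝ ∞ φ) (a x : E n) :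
    Lie J (Lie J (fun y => φ ⟪a, y⟫)) x =
      deriv (deriv φ) ⟪a, x⟫ * (⟪a, J x⟫ * ⟪a, J x⟫) + deriv φ ⟪a, x⟫ * ⟪a, J (J x)⟫ := by
  have h1 : Lie J (fun y => φ ⟪a, y⟫) = fun y => deriv φ ⟪a, y⟫ * ((innerSL ℝ a).comp J) y := by
    funext y; rw [Lie_zonal J hφ]; simp
  rw [h1, Lie_mul J (contDiff_zonal (contDiff_deriv hφ) a) ((innerSL ℝ a).comp J).contDiff,
    Lie_zonal J (contDiff_deriv hφ)]
  have h2 : Lie J (fun y => ((innerSL ℝ a).comp J) y) x = ⟪a, J (J x)⟫ := by
    unfold Lie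
    have : fderiv ℝ (fun y => ((innerSL ℝ a).comp J) y) x = (innerSL ℝ a).comp J :=
      ((innerSL ℝ a).comp J).fderiv
    rw [this]
    simp
  rw [h2]
  simp
  ring

lemma sum_quad_zonal (a x : E n) (c : ℝ) :
    (1 / 2 : ℝ) * ∑ i, ∑ j, c * (⟪a, Jf i j x⟫ * ⟪a, Jf i j x⟫) =
      c * (‖x‖ ^ 2 * ‖a‖ ^ 2 - ⟪a, x⟫ ^ 2) := by
  have h := sum_quad (c • (innerSL ℝ a).smulRight (innerSL ℝ a)) x
  simp only [ContinuousLinearMap.coe_smul', Pi.smul_apply, ContinuousLinearMap.smulRight_apply,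
    smul_eq_mul, innerSL_apply_apply] at h
  rw [h]
  have h2 : ∑ k : Fin (n + 1), c * (⟪a, ev k⟫ * ⟪a, ev k⟫) = c * ‖a‖ ^ 2 := by
    rw [← Finset.mul_sum, EuclideanSpace.norm_sq_eq]
    congr 1
    refine Finset.sum_congr rfl fun k _ => ?_
    rw [EuclideanSpace.inner_single_right]
    simp
    ring
  rw [h2]
  ring

lemma Lap_zonal {φ : ℝ → ℝ} (hφ : ContDiff ℝ ∞ φ) (a x : E n) :
    Lap (fun y => φ ⟪a, y⟫) x = deriv (deriv φ) ⟪a, x⟫ * (‖x‖ ^ 2 * ‖a‖ ^ 2 - ⟪a, x⟫ ^ 2) -
      (n : ℝ) * (deriv φ ⟪a, x⟫ * ⟪a, x⟫) := by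
  unfold Lap
  simp only [Lie_Lie_zonal _ hφ, Finset.sum_add_distrib, mul_add]
  rw [sum_quad_zonal]
  have h := sum_lin (deriv φ ⟪a, x⟫ • innerSL ℝ a) x
  simp only [ContinuousLinearMap.coe_smul', Pi.smul_apply, smul_eq_mul, innerSL_apply_apply] at h
  rw [h]
  ring

end Pool.Agent.Lib.MP_4a15bf_mp
end

section
/-!
Integrals over `S³` of zonal functions.
-/
set_option autoImplicit false

namespace Pool.Agent.Lib.MP_4a15bf_mp

open MeasureTheory Set Filter Topology
open scoped ENNReal ContDiff RealInnerProductSpace Laplacian InnerProductSpace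

lemma one_add_sq_le_cosh_sq (s : ℝ) : 1 + s ^ 2 ≤ Real.cosh s ^ 2 := by
  have h1 := Real.cosh_sq s
  have h2 : s ^ 2 ≤ Real.sinh s ^ 2 := by
    rcases le_total 0 s with h | h
    · have := Real.self_le_sinh_iff.2 h
      nlinarith
    · have := Real.sinh_le_self_iff.2 h
      nlinarith
  linarith

lemma abs_cosh' (s : ℝ) : |Real.cosh s| = Real.cosh s := abs_of_pos (Real.cosh_pos s)

lemma hasDerivAt_tanh (s : ℝ) : HasDerivAt Real.tanh (1 / Real.cosh s ^ 2) s := by
  have h1 := (Real.hasDerivAt_sinh s).div (Real.hasDerivAt_cosh s) (Real.cosh_pos s).ne'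
  have h2 : Real.tanh = fun x => Real.sinh x / Real.cosh x := by
    funext x; exact Real.tanh_eq_sinh_div_cosh x
  rw [h2]
  refine h1.congr_deriv ?_
  have := Real.cosh_sq s
  congr 1
  nlinarith

lemma continuous_tanh : Continuous Real.tanh := by
  have : Differentiable ℝ Real.tanh := fun s => (hasDerivAt_tanh s).differentiableAt
  exact this.continuous

lemma tanh_sq (s : ℝ) : Real.tanh s ^ 2 = 1 - 1 / Real.cosh s ^ 2 := by
  have h := Real.cosh_sq s
  have hc := (Real.cosh_pos s).ne'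
  rw [Real.tanh_eq_sinh_div_cosh, div_pow]
  field_simp
  linarith

lemma abs_tanh_le_one (s : ℝ) : |Real.tanh s| ≤ 1 := by
  rw [← sq_le_one_iff_abs_le_one, tanh_sq]
  have : 0 < 1 / Real.cosh s ^ 2 := by have := Real.cosh_pos s; positivity
  linarith

lemma tanh_mem_Icc (s : ℝ) : Real.tanh s ∈ Icc (-1 : ℝ) 1 := abs_le.1 (abs_tanh_le_one s)

lemma integrable_cosh_pow_neg (g : ℝ → ℝ) (hg : Continuous g) (C : ℝ) (hC : ∀ s, |g s| ≤ C) :
    Integrable (fun s => g s / Real.cosh s ^ 3) := by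
  have h0 : Integrable (fun s : ℝ => C * (1 + s ^ 2)⁻¹) := integrable_inv_one_add_sq.const_mul C
  refine h0.mono' ?_ ?_
  · exact (hg.div (Real.continuous_cosh.pow 3)
      (fun s => pow_ne_zero _ (Real.cosh_pos s).ne')).aestronglyMeasurable
  · refine Eventually.of_forall fun s => ?_
    have hc := Real.one_le_cosh s
    have h1 := one_add_sq_le_cosh_sq s
    have hC0 : 0 ≤ C := (abs_nonneg _).trans (hC s)
    rw [Real.norm_eq_abs, abs_div, abs_of_pos (a := Real.cosh s ^ 3) (by positivity)]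
    rw [div_eq_mul_inv]
    apply mul_le_mul (hC s) _ (by positivity) hC0
    apply inv_anti₀ (by positivity)
    calc 1 + s ^ 2 ≤ Real.cosh s ^ 2 := h1
      _ ≤ Real.cosh s ^ 3 := pow_le_pow_right₀ hc (by norm_num)

/-- The moments of `tanh` against `cosh⁻³`. -/
noncomputable def Mm (k : ℕ) : ℝ := ∫ s : ℝ, Real.tanh s ^ k / Real.cosh s ^ 3

lemma integrable_Mm (k : ℕ) : Integrable (fun s : ℝ => Real.tanh s ^ k / Real.cosh s ^ 3) := by
  refine integrable_cosh_pow_neg _ (continuous_tanh.pow k) 1 fun s => ?_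
  rw [abs_pow]
  exact pow_le_one₀ (abs_nonneg _) (abs_tanh_le_one s)

lemma tendsto_cosh_atTop : Tendsto Real.cosh atTop atTop := by
  refine tendsto_atTop_mono (fun s => ?_) tendsto_id
  have h1 := one_add_sq_le_cosh_sq s
  have h2 := Real.cosh_pos s
  rcases le_total s 0 with h | h
  · simp only [id]; linarith
  · simp only [id]; nlinarith

lemma tendsto_cosh_atBot : Tendsto Real.cosh atBot atTop := by
  have := tendsto_cosh_atTop.comp tendsto_neg_atBot_atTop
  refine this.congr fun s => ?_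
  simp

lemma Mm_rec (k : ℕ) : (k + 1 : ℝ) * Mm k = (k + 4 : ℝ) * Mm (k + 2) := by
  have hd : ∀ s : ℝ, HasDerivAt (fun s => Real.tanh s ^ (k + 1) / Real.cosh s ^ 3)
      ((k + 1 : ℝ) * (Real.tanh s ^ k / Real.cosh s ^ 3) -
        (k + 4 : ℝ) * (Real.tanh s ^ (k + 2) / Real.cosh s ^ 3)) s := by
    intro s
    have hc := (Real.cosh_pos s).ne'
    have h1 := ((hasDerivAt_tanh s).pow (k + 1)).div ((Real.hasDerivAt_cosh s).pow 3)
      (pow_ne_zero 3 hc)
    refine h1.congr_deriv ?_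
    have e1 : Real.sinh s = Real.tanh s * Real.cosh s := by
      rw [Real.tanh_eq_sinh_div_cosh]; field_simp
    have e2 : 1 / Real.cosh s ^ 2 = 1 - Real.tanh s ^ 2 := by rw [tanh_sq]; ring
    rw [e1, e2]
    push_cast
    field_simp
    simp
    ring
  have h := integral_of_hasDerivAt_of_tendsto hd
    (((integrable_Mm k).const_mul _).sub ((integrable_Mm (k + 2)).const_mul _)) (m := 0) (n := 0)
    ?_ ?_
  · rw [integral_sub ((integrable_Mm k).const_mul _) ((integrable_Mm (k + 2)).const_mul _),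
      integral_const_mul, integral_const_mul] at h
    unfold Mm
    linarith
  · have h3 : Tendsto (fun s : ℝ => (Real.cosh s ^ 3)⁻¹) atBot (𝓝 0) :=
      tendsto_inv_atTop_zero.comp ((tendsto_pow_atTop (by norm_num)).comp tendsto_cosh_atBot)
    refine squeeze_zero_norm (fun s => ?_) h3
    rw [norm_div, norm_pow, norm_pow, Real.norm_eq_abs, Real.norm_eq_abs, abs_cosh',
      div_eq_mul_inv]
    exact mul_le_of_le_one_left (by have := Real.cosh_pos s; positivity)
      (pow_le_one₀ (abs_nonneg _) (abs_tanh_le_one s))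
  · have h3 : Tendsto (fun s : ℝ => (Real.cosh s ^ 3)⁻¹) atTop (𝓝 0) :=
      tendsto_inv_atTop_zero.comp ((tendsto_pow_atTop (by norm_num)).comp tendsto_cosh_atTop)
    refine squeeze_zero_norm (fun s => ?_) h3
    rw [norm_div, norm_pow, norm_pow, Real.norm_eq_abs, Real.norm_eq_abs, abs_cosh',
      div_eq_mul_inv]
    exact mul_le_of_le_one_left (by have := Real.cosh_pos s; positivity)
      (pow_le_one₀ (abs_nonneg _) (abs_tanh_le_one s))

lemma Mm_one : Mm 1 = 0 := by
  unfold Mm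
  have h := integral_neg_eq_self (fun s : ℝ => Real.tanh s ^ 1 / Real.cosh s ^ 3) volume
  simp only [Real.tanh_neg, Real.cosh_neg, pow_one, neg_div, integral_neg] at h ⊢
  linarith

lemma Mm_zero : Mm 0 = Real.pi / 2 := by
  have hd : ∀ s : ℝ, HasDerivAt (fun s => (1 / 2 : ℝ) * (Real.tanh s / Real.cosh s +
      Real.arctan (Real.sinh s))) (Real.tanh s ^ 0 / Real.cosh s ^ 3) s := by
    intro s
    have hc := (Real.cosh_pos s).ne'
    have h1 := (((hasDerivAt_tanh s).div (Real.hasDerivAt_cosh s) hc).add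
      ((Real.hasDerivAt_sinh s).arctan)).const_mul (1 / 2 : ℝ)
    refine h1.congr_deriv ?_
    have e1 : Real.sinh s = Real.tanh s * Real.cosh s := by
      rw [Real.tanh_eq_sinh_div_cosh]; field_simp
    have e2 : 1 + Real.sinh s ^ 2 = Real.cosh s ^ 2 := by rw [Real.cosh_sq]; ring
    have e3 : Real.tanh s ^ 2 = 1 - 1 / Real.cosh s ^ 2 := tanh_sq s
    rw [e2]
    have e4 : Real.tanh s * Real.sinh s = (1 - 1 / Real.cosh s ^ 2) * Real.cosh s := by
      rw [e1, ← e3]; ring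
    rw [e4]
    field_simp
    ring
  have h := integral_of_hasDerivAt_of_tendsto hd (integrable_Mm 0)
    (m := (1 / 2 : ℝ) * (0 + -(Real.pi / 2))) (n := (1 / 2 : ℝ) * (0 + Real.pi / 2)) ?_ ?_
  · unfold Mm
    rw [h]; ring
  · refine Tendsto.const_mul _ (Tendsto.add ?_ ?_)
    · have h3 : Tendsto (fun s : ℝ => (Real.cosh s)⁻¹) atBot (𝓝 0) :=
        tendsto_inv_atTop_zero.comp tendsto_cosh_atBot
      refine squeeze_zero_norm (fun s => ?_) h3
      rw [norm_div, Real.norm_eq_abs, Real.norm_eq_abs, abs_cosh', div_eq_mul_inv]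
      exact mul_le_of_le_one_left (by have := Real.cosh_pos s; positivity) (abs_tanh_le_one s)
    · have h4 : Tendsto Real.sinh atBot atBot := by
        refine tendsto_atBot_mono' _ ?_ tendsto_id
        filter_upwards [eventually_le_atBot 0] with s hs
        exact Real.sinh_le_self_iff.2 hs
      have h5 : Tendsto Real.arctan atBot (𝓝 (-(Real.pi / 2))) :=
        tendsto_nhds_of_tendsto_nhdsWithin Real.tendsto_arctan_atBot
      exact h5.comp h4
  · refine Tendsto.const_mul _ (Tendsto.add ?_ ?_)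
    · have h3 : Tendsto (fun s : ℝ => (Real.cosh s)⁻¹) atTop (𝓝 0) :=
        tendsto_inv_atTop_zero.comp tendsto_cosh_atTop
      refine squeeze_zero_norm (fun s => ?_) h3
      rw [norm_div, Real.norm_eq_abs, Real.norm_eq_abs, abs_cosh', div_eq_mul_inv]
      exact mul_le_of_le_one_left (by have := Real.cosh_pos s; positivity) (abs_tanh_le_one s)
    · have h4 : Tendsto Real.sinh atTop atTop := by
        refine tendsto_atTop_mono' _ ?_ tendsto_id
        filter_upwards [eventually_ge_atTop 0] with s hs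
        exact Real.self_le_sinh_iff.2 hs
      have h5 : Tendsto Real.arctan atTop (𝓝 (Real.pi / 2)) :=
        tendsto_nhds_of_tendsto_nhdsWithin Real.tendsto_arctan_atTop
      exact h5.comp h4

end Pool.Agent.Lib.MP_4a15bf_mp
end

section
/-!
Integrals over `S³` of zonal functions, continued.
-/
set_option autoImplicit false

namespace Pool.Agent.Lib.MP_4a15bf_mp

open MeasureTheory Set Filter Topology
open scoped ENNReal ContDiff RealInnerProductSpace Laplacian InnerProductSpace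

/-- The pole. -/
noncomputable abbrev pole : E 3 := ev 0

lemma norm_pole : ‖pole‖ = 1 := by simp [pole, ev]

lemma inner_pole_mem (x : Sph 3) : ⟪pole, (x : E 3)⟫ ∈ Icc (-1 : ℝ) 1 := by
  have h := abs_real_inner_le_norm pole (x : E 3)
  rw [norm_pole, norm_coe, one_mul] at h
  exact abs_le.1 h

/-- The moments of the height function. -/
noncomputable def mm (k : ℕ) : ℝ := ∫ x : Sph 3, ⟪pole, (x : E 3)⟫ ^ k ∂(sigma 3)

lemma integrable_mm (k : ℕ) : Integrable (fun x : Sph 3 => ⟪pole, (x : E 3)⟫ ^ k) (sigma 3) :=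
  integrable_sph (F := fun x : E 3 => ⟪pole, x⟫ ^ k)
    ((continuous_const.inner continuous_id).pow k)

lemma integral_Lap {n : ℕ} {F : E n → ℝ} (hF : ContDiff ℝ ∞ F) :
    ∫ x : Sph n, Lap F x ∂(sigma n) = 0 := by
  have h := green hF (contDiff_const (c := (1 : ℝ)))
  have h2 : ∀ (J : E n →L[ℝ] E n) (x : E n), Lie J (fun _ => (1 : ℝ)) x = 0 := by
    intro J x; simp [Lie]
  simpa [h2] using h

lemma mm_rec (k : ℕ) : (k + 1 : ℝ) * mm k = (k + 4 : ℝ) * mm (k + 2) := by
  have hφ : ContDiff ℝ ∞ (fun z : ℝ => z ^ (k + 2)) := contDiff_id.pow _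
  have h1 : deriv (fun z : ℝ => z ^ (k + 2)) = fun z => (k + 2 : ℝ) * z ^ (k + 1) := by
    funext z; simp
  have h2 : deriv (fun z : ℝ => (k + 2 : ℝ) * z ^ (k + 1)) =
      fun z => (k + 2 : ℝ) * ((k + 1 : ℝ) * z ^ k) := by
    funext z
    rw [deriv_const_mul _ (by fun_prop)]
    simp
  have h := integral_Lap (contDiff_zonal hφ pole)
  have h3 : (fun x : Sph 3 => Lap (fun y => (fun z : ℝ => z ^ (k + 2)) ⟪pole, y⟫) (x : E 3)) =
      fun x : Sph 3 => (k + 2 : ℝ) * ((k + 1 : ℝ) * ⟪pole, (x : E 3)⟫ ^ k) -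
        (k + 2 : ℝ) * ((k + 4 : ℝ) * ⟪pole, (x : E 3)⟫ ^ (k + 2)) := by
    funext x
    rw [Lap_zonal hφ, h1, h2, norm_coe, norm_pole]
    push_cast
    ring
  rw [h3, integral_sub, integral_const_mul, integral_const_mul, integral_const_mul,
    integral_const_mul] at h
  · have h4 : (k + 2 : ℝ) ≠ 0 := by positivity
    have h5 : (k + 2 : ℝ) * ((k + 1 : ℝ) * mm k) = (k + 2 : ℝ) * ((k + 4 : ℝ) * mm (k + 2)) := by
      unfold mm; linarith
    exact mul_left_cancel₀ h4 h5
  · exact ((integrable_mm k).const_mul _).const_mul _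
  · exact ((integrable_mm (k + 2)).const_mul _).const_mul _

lemma mm_one : mm 1 = 0 := by
  have hφ : ContDiff ℝ ∞ (fun z : ℝ => z) := contDiff_id
  have h := integral_Lap (contDiff_zonal hφ pole)
  have h3 : (fun x : Sph 3 => Lap (fun y => (fun z : ℝ => z) ⟪pole, y⟫) (x : E 3)) =
      fun x : Sph 3 => (-3 : ℝ) * ⟪pole, (x : E 3)⟫ ^ 1 := by
    funext x
    rw [Lap_zonal hφ]
    have e1 : deriv (fun z : ℝ => z) = fun _ => 1 := by funext z; simp
    rw [e1]
    simp
  rw [h3, integral_const_mul] at h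
  unfold mm
  linarith

lemma mm_eq (k : ℕ) : Mm 0 * mm k = mm 0 * Mm k := by
  induction k using Nat.twoStepInduction with
  | zero => ring
  | one => rw [mm_one, Mm_one]; ring
  | more k h0 _ =>
    have h1 := mm_rec k
    have h2 := Mm_rec k
    have h4 : (k + 4 : ℝ) ≠ 0 := by positivity
    apply mul_left_cancel₀ h4
    calc (k + 4 : ℝ) * (Mm 0 * mm (k + 2)) = Mm 0 * ((k + 4 : ℝ) * mm (k + 2)) := by ring
      _ = Mm 0 * ((k + 1 : ℝ) * mm k) := by rw [h1]
      _ = (k + 1 : ℝ) * (Mm 0 * mm k) := by ring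
      _ = (k + 1 : ℝ) * (mm 0 * Mm k) := by rw [h0]
      _ = mm 0 * ((k + 1 : ℝ) * Mm k) := by ring
      _ = (k + 4 : ℝ) * (mm 0 * Mm (k + 2)) := by rw [h2]; ring

lemma mm_zero : mm 0 = (sigma 3).real univ := by simp [mm]

lemma poly_eq (p : Polynomial ℝ) :
    Mm 0 * ∫ x : Sph 3, p.eval ⟪pole, (x : E 3)⟫ ∂(sigma 3) =
      mm 0 * ∫ s : ℝ, p.eval (Real.tanh s) / Real.cosh s ^ 3 := by
  have e1 : ∀ z : ℝ, p.eval z = ∑ k ∈ Finset.range (p.natDegree + 1), p.coeff k * z ^ k :=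
    fun z => Polynomial.eval_eq_sum_range z
  have e2 : ∫ x : Sph 3, p.eval ⟪pole, (x : E 3)⟫ ∂(sigma 3) =
      ∑ k ∈ Finset.range (p.natDegree + 1), p.coeff k * mm k := by
    simp only [e1]
    rw [integral_finsetSum _ fun k _ => (integrable_mm k).const_mul _]
    exact Finset.sum_congr rfl fun k _ => integral_const_mul _ _
  have e3 : ∫ s : ℝ, p.eval (Real.tanh s) / Real.cosh s ^ 3 =
      ∑ k ∈ Finset.range (p.natDegree + 1), p.coeff k * Mm k := by
    have e4 : (fun s : ℝ => p.eval (Real.tanh s) / Real.cosh s ^ 3) =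
        fun s => ∑ k ∈ Finset.range (p.natDegree + 1),
          p.coeff k * (Real.tanh s ^ k / Real.cosh s ^ 3) := by
      funext s
      rw [e1, Finset.sum_div]
      exact Finset.sum_congr rfl fun k _ => by ring
    rw [e4, integral_finsetSum _ fun k _ => (integrable_Mm k).const_mul _]
    exact Finset.sum_congr rfl fun k _ => integral_const_mul _ _
  rw [e2, e3, Finset.mul_sum, Finset.mul_sum]
  refine Finset.sum_congr rfl fun k _ => ?_
  have := mm_eq k
  linear_combination p.coeff k * this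

/-- Integrals of zonal functions over `S³`. -/
theorem integral_zonal {g : ℝ → ℝ} (hg : Continuous g) :
    (Real.pi / 2) * ∫ x : Sph 3, g ⟪pole, (x : E 3)⟫ ∂(sigma 3) =
      (sigma 3).real univ * ∫ s : ℝ, g (Real.tanh s) / Real.cosh s ^ 3 := by
  rw [← Mm_zero, ← mm_zero]
  obtain ⟨C, hC⟩ : ∃ C, ∀ z ∈ Icc (-1 : ℝ) 1, ‖g z‖ ≤ C :=
    isCompact_Icc.exists_bound_of_continuousOn hg.continuousOn
  have hM0 : 0 ≤ Mm 0 := by rw [Mm_zero]; positivity
  have hm0 : 0 ≤ mm 0 := by rw [mm_zero]; positivity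
  have hgi : Integrable (fun x : Sph 3 => g ⟪pole, (x : E 3)⟫) (sigma 3) :=
    integrable_sph (F := fun x : E 3 => g ⟪pole, x⟫) (hg.comp (continuous_const.inner continuous_id))
  have hgi2 : Integrable (fun s : ℝ => g (Real.tanh s) / Real.cosh s ^ 3) :=
    integrable_cosh_pow_neg _ (hg.comp continuous_tanh) C fun s => hC _ (tanh_mem_Icc s)
  have key : ∀ ε > 0, |Mm 0 * ∫ x : Sph 3, g ⟪pole, (x : E 3)⟫ ∂(sigma 3) -
      mm 0 * ∫ s : ℝ, g (Real.tanh s) / Real.cosh s ^ 3| ≤ 2 * (Mm 0 * mm 0) * ε := by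
    intro ε hε
    obtain ⟨p, hp⟩ := exists_polynomial_near_of_continuousOn (-1) 1 g hg.continuousOn ε hε
    have hpi : Integrable (fun x : Sph 3 => p.eval ⟪pole, (x : E 3)⟫) (sigma 3) :=
      integrable_sph (F := fun x : E 3 => p.eval ⟪pole, x⟫)
        (p.continuous.comp (continuous_const.inner continuous_id))
    obtain ⟨C', hC'⟩ : ∃ C, ∀ z ∈ Icc (-1 : ℝ) 1, ‖p.eval z‖ ≤ C :=
      isCompact_Icc.exists_bound_of_continuousOn p.continuous.continuousOn
    have hpi2 : Integrable (fun s : ℝ => p.eval (Real.tanh s) / Real.cosh s ^ 3) :=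
      integrable_cosh_pow_neg _ (p.continuous.comp continuous_tanh) C'
        fun s => hC' _ (tanh_mem_Icc s)
    have h1 : |∫ x : Sph 3, g ⟪pole, (x : E 3)⟫ ∂(sigma 3) -
        ∫ x : Sph 3, p.eval ⟪pole, (x : E 3)⟫ ∂(sigma 3)| ≤ ε * mm 0 := by
      rw [← integral_sub hgi hpi, mm_zero, mul_comm, ← Real.norm_eq_abs]
      refine (norm_integral_le_of_norm_le_const (μ := sigma 3) (C := ε)
        (Eventually.of_forall fun x => ?_)).trans ?_
      · have := hp _ (inner_pole_mem x)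
        rw [Real.norm_eq_abs, abs_sub_comm]
        exact this.le
      · rw [mul_comm]
    have h2 : |(∫ s : ℝ, g (Real.tanh s) / Real.cosh s ^ 3) -
        ∫ s : ℝ, p.eval (Real.tanh s) / Real.cosh s ^ 3| ≤ ε * Mm 0 := by
      rw [← integral_sub hgi2 hpi2, ← Real.norm_eq_abs]
      refine (norm_integral_le_of_norm_le (((integrable_Mm 0).const_mul ε))
        (Eventually.of_forall fun s => ?_)).trans ?_
      · have h3 := hp _ (tanh_mem_Icc s)
        have hc := Real.cosh_pos s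
        rw [← sub_div, norm_div, Real.norm_eq_abs, Real.norm_eq_abs,
          abs_of_pos (a := Real.cosh s ^ 3) (by positivity), pow_zero, abs_sub_comm, mul_one_div]
        exact div_le_div_of_nonneg_right h3.le (by positivity)
      · rw [integral_const_mul]; rfl
    have h3 := poly_eq p
    have h4 : Mm 0 * ∫ x : Sph 3, g ⟪pole, (x : E 3)⟫ ∂(sigma 3) -
        mm 0 * ∫ s : ℝ, g (Real.tanh s) / Real.cosh s ^ 3 =
        Mm 0 * (∫ x : Sph 3, g ⟪pole, (x : E 3)⟫ ∂(sigma 3) -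
          ∫ x : Sph 3, p.eval ⟪pole, (x : E 3)⟫ ∂(sigma 3)) -
        mm 0 * ((∫ s : ℝ, g (Real.tanh s) / Real.cosh s ^ 3) -
          ∫ s : ℝ, p.eval (Real.tanh s) / Real.cosh s ^ 3) := by
      linear_combination h3
    rw [h4]
    calc _ ≤ |Mm 0 * (∫ x : Sph 3, g ⟪pole, (x : E 3)⟫ ∂(sigma 3) -
          ∫ x : Sph 3, p.eval ⟪pole, (x : E 3)⟫ ∂(sigma 3))| +
        |mm 0 * ((∫ s : ℝ, g (Real.tanh s) / Real.cosh s ^ 3) -
          ∫ s : ℝ, p.eval (Real.tanh s) / Real.cosh s ^ 3)| := abs_sub _ _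
      _ ≤ Mm 0 * (ε * mm 0) + mm 0 * (ε * Mm 0) := by
          rw [abs_mul, abs_mul, abs_of_nonneg hM0, abs_of_nonneg hm0]
          gcongr
      _ = _ := by ring
  have h0 : |Mm 0 * ∫ x : Sph 3, g ⟪pole, (x : E 3)⟫ ∂(sigma 3) -
      mm 0 * ∫ s : ℝ, g (Real.tanh s) / Real.cosh s ^ 3| ≤ 0 := by
    by_contra hne
    push Not at hne
    set A := |Mm 0 * ∫ x : Sph 3, g ⟪pole, (x : E 3)⟫ ∂(sigma 3) -
      mm 0 * ∫ s : ℝ, g (Real.tanh s) / Real.cosh s ^ 3| with hA
    have hk := key (A / (2 * (2 * (Mm 0 * mm 0) + 1))) (by positivity)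
    have : 2 * (Mm 0 * mm 0) * (A / (2 * (2 * (Mm 0 * mm 0) + 1))) < A := by
      rw [mul_div_assoc', div_lt_iff₀ (by positivity)]
      nlinarith [mul_nonneg hM0 hm0]
    linarith
  have := abs_nonpos_iff.1 h0
  linarith

end Pool.Agent.Lib.MP_4a15bf_mp
end
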