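import Mathlib
import Pool.Agent.Lib.MP_4a15bf_mp.h5.Push2

section
/-!
A smooth window and local cosine functions.
-/
set_option autoImplicit false

namespace Pool.Agent.Lib.MP_4a15bf_mp

open MeasureTheory Set Filter Topology
open scoped ContDiff

/-- The smooth step. -/
noncomputable def bstep (x : ℝ) : ℝ := Real.sin (Real.pi / 2 * Real.smoothTransition (x + 1 / 2))

lemma contDiff_bstep : ContDiff ℝ ∞ bstep := by
  unfold bstep
  exact Real.contDiff_sin.comp (contDiff_const.mul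
    (Real.smoothTransition.contDiff.comp (contDiff_id.add contDiff_const)))

lemma bstep_zero {x : ℝ} (hx : x ≤ -(1 / 2)) : bstep x = 0 := by
  unfold bstep
  rw [Real.smoothTransition.zero_of_nonpos (by linarith)]
  simp

lemma bstep_one {x : ℝ} (hx : 1 / 2 ≤ x) : bstep x = 1 := by
  unfold bstep
  rw [Real.smoothTransition.one_of_one_le (by linarith)]
  simp

lemma smoothTransition_one_sub (x : ℝ) :
    Real.smoothTransition (1 - x) = 1 - Real.smoothTransition x := by
  unfold Real.smoothTransition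
  have h := Real.smoothTransition.pos_denom x
  have h2 : 1 - (1 - x) = x := by ring
  rw [h2, add_comm (expNegInvGlue (1 - x))]
  field_simp
  ring

lemma bstep_sq_add (x : ℝ) : bstep x ^ 2 + bstep (-x) ^ 2 = 1 := by
  unfold bstep
  have h : -x + 1 / 2 = 1 - (x + 1 / 2) := by ring
  rw [h, smoothTransition_one_sub, mul_sub, mul_one, Real.sin_pi_div_two_sub]
  exact Real.sin_sq_add_cos_sq _

lemma abs_bstep_le (x : ℝ) : |bstep x| ≤ 1 := Real.abs_sin_le_one _

/-- The window on `[0, L]`. -/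
noncomputable def win (L x : ℝ) : ℝ := bstep x * bstep (L - x)

lemma contDiff_win (L : ℝ) : ContDiff ℝ ∞ (win L) :=
  contDiff_bstep.mul (contDiff_bstep.comp (contDiff_const.sub contDiff_id))

lemma win_zero_left {L x : ℝ} (hx : x ≤ -(1 / 2)) : win L x = 0 := by
  unfold win; rw [bstep_zero hx, zero_mul]

lemma win_zero_right {L x : ℝ} (hx : L + 1 / 2 ≤ x) : win L x = 0 := by
  unfold win; rw [bstep_zero (x := L - x) (by linarith), mul_zero]

lemma hasCompactSupport_win (L : ℝ) : HasCompactSupport (win L) := by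
  refine HasCompactSupport.intro (K := Icc (-(1 / 2)) (L + 1 / 2)) isCompact_Icc fun x hx => ?_
  simp only [mem_Icc, not_and_or, not_le] at hx
  rcases hx with h | h
  · exact win_zero_left h.le
  · exact win_zero_right h.le

lemma win_left {L x : ℝ} (hx : x ≤ L - 1 / 2) : win L x = bstep x := by
  unfold win; rw [bstep_one (x := L - x) (by linarith), mul_one]

lemma win_right {L x : ℝ} (hx : 1 / 2 ≤ x) : win L x = bstep (L - x) := by
  unfold win; rw [bstep_one hx, one_mul]

lemma integral_bstep_cos (k : ℝ) :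
    ∫ x in (-(1 / 2) : ℝ)..(1 / 2), bstep x ^ 2 * Real.cos (k * x) =
      (1 / 2) * ∫ x in (-(1 / 2) : ℝ)..(1 / 2), Real.cos (k * x) := by
  have hc : Continuous fun x => bstep x ^ 2 * Real.cos (k * x) :=
    (contDiff_bstep.continuous.pow 2).mul (Real.continuous_cos.comp (continuous_const.mul continuous_id))
  have hc2 : Continuous fun x => bstep (-x) ^ 2 * Real.cos (k * x) :=
    ((contDiff_bstep.continuous.comp continuous_neg).pow 2).mul
      (Real.continuous_cos.comp (continuous_const.mul continuous_id))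
  have h1 : ∫ x in (-(1 / 2) : ℝ)..(1 / 2), bstep (-x) ^ 2 * Real.cos (k * x) =
      ∫ x in (-(1 / 2) : ℝ)..(1 / 2), bstep x ^ 2 * Real.cos (k * x) := by
    have h := intervalIntegral.integral_comp_neg (a := (-(1 / 2) : ℝ)) (b := 1 / 2)
      (fun x => bstep x ^ 2 * Real.cos (k * x))
    simp only [neg_neg, mul_neg, Real.cos_neg] at h
    exact h
  have h2 : ∫ x in (-(1 / 2) : ℝ)..(1 / 2), Real.cos (k * x) =
      (∫ x in (-(1 / 2) : ℝ)..(1 / 2), bstep x ^ 2 * Real.cos (k * x)) +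
        ∫ x in (-(1 / 2) : ℝ)..(1 / 2), bstep (-x) ^ 2 * Real.cos (k * x) := by
    rw [← intervalIntegral.integral_add (hc.intervalIntegrable _ _) (hc2.intervalIntegrable _ _)]
    congr 1
    funext x
    rw [← add_mul, bstep_sq_add, one_mul]
  rw [h2, h1]
  ring

lemma integral_cos_mul {k : ℝ} (hk : k ≠ 0) (a b : ℝ) :
    ∫ x in a..b, Real.cos (k * x) = (Real.sin (k * b) - Real.sin (k * a)) / k := by
  rw [intervalIntegral.integral_comp_mul_left (fun x => Real.cos x) hk, integral_cos]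
  simp
  ring

lemma integral_win_split {L : ℝ} (hL : 1 ≤ L) (k : ℝ) :
    ∫ x, win L x ^ 2 * Real.cos (k * x) =
      (∫ x in (-(1 / 2) : ℝ)..(1 / 2), bstep x ^ 2 * Real.cos (k * x)) +
      (∫ x in (1 / 2 : ℝ)..(L - 1 / 2), Real.cos (k * x)) +
      ∫ x in (-(1 / 2) : ℝ)..(1 / 2), bstep x ^ 2 * Real.cos (k * (L - x)) := by
  have hc : Continuous fun x => win L x ^ 2 * Real.cos (k * x) :=
    ((contDiff_win L).continuous.pow 2).mul (Real.continuous_cos.comp (continuous_const.mul continuous_id))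
  have h1 : ∫ x, win L x ^ 2 * Real.cos (k * x) =
      ∫ x in (-(1 / 2) : ℝ)..(L + 1 / 2), win L x ^ 2 * Real.cos (k * x) := by
    rw [intervalIntegral.integral_of_le (by linarith)]
    symm
    apply setIntegral_eq_integral_of_forall_compl_eq_zero
    intro x hx
    simp only [mem_Ioc, not_and_or, not_lt, not_le] at hx
    rcases hx with h | h
    · rw [win_zero_left h]; simp
    · rw [win_zero_right h.le]; simp
  rw [h1, ← intervalIntegral.integral_add_adjacent_intervals (b := 1 / 2)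
    (hc.intervalIntegrable _ _) (hc.intervalIntegrable _ _),
    ← intervalIntegral.integral_add_adjacent_intervals (a := 1 / 2) (b := L - 1 / 2)
    (hc.intervalIntegrable _ _) (hc.intervalIntegrable _ _), ← add_assoc]
  congr 1
  · congr 1
    · apply intervalIntegral.integral_congr
      intro x hx
      rw [uIcc_of_le (by norm_num)] at hx
      simp only
      rw [win_left (by linarith [hx.2])]
    · apply intervalIntegral.integral_congr
      intro x hx
      rw [uIcc_of_le (by linarith)] at hx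
      simp only
      rw [win_left hx.2, bstep_one hx.1]
      ring
  · have h2 := intervalIntegral.integral_comp_sub_left
      (fun x => bstep (L - x) ^ 2 * Real.cos (k * x)) (a := (-(1 / 2) : ℝ)) (b := 1 / 2) L
    have h3 : L - -(1 / 2) = L + 1 / 2 := by ring
    rw [h3] at h2
    have h4 : ∫ x in (-(1 / 2) : ℝ)..(1 / 2), bstep x ^ 2 * Real.cos (k * (L - x)) =
        ∫ x in (-(1 / 2) : ℝ)..(1 / 2), bstep (L - (L - x)) ^ 2 * Real.cos (k * (L - x)) := by
      congr 1; funext x; congr 3; ring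
    rw [h4, h2]
    apply intervalIntegral.integral_congr
    intro x hx
    rw [uIcc_of_le (by linarith)] at hx
    simp only
    rw [win_right (by linarith [hx.1])]

lemma integral_win_cos {L : ℝ} (hL : 1 ≤ L) {k : ℝ} (hk : Real.sin (k * L) = 0) :
    ∫ x, win L x ^ 2 * Real.cos (k * x) = if k = 0 then L else 0 := by
  rw [integral_win_split hL]
  have h1 : ∫ x in (-(1 / 2) : ℝ)..(1 / 2), bstep x ^ 2 * Real.cos (k * (L - x)) =
      Real.cos (k * L) * ∫ x in (-(1 / 2) : ℝ)..(1 / 2), bstep x ^ 2 * Real.cos (k * x) := by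
    rw [← intervalIntegral.integral_const_mul]
    congr 1
    funext x
    rw [mul_sub, Real.cos_sub, hk]
    ring
  rw [h1, integral_bstep_cos]
  by_cases hk0 : k = 0
  · subst hk0
    simp
    ring
  · rw [if_neg hk0, integral_cos_mul hk0, integral_cos_mul hk0]
    have e1 : k * (L - 1 / 2) = k * L - k * (1 / 2) := by ring
    have e2 : k * -(1 / 2) = -(k * (1 / 2)) := by ring
    rw [e1, e2, Real.sin_sub, Real.sin_neg, hk]
    ring

end Pool.Agent.Lib.MP_4a15bf_mp
end

section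
/-!
Local cosine functions: orthogonality and energy.
-/
set_option autoImplicit false

namespace Pool.Agent.Lib.MP_4a15bf_mp

open MeasureTheory Set Filter Topology
open scoped ContDiff

lemma contDiff_deriv' {φ : ℝ → ℝ} (hφ : ContDiff ℝ ∞ φ) : ContDiff ℝ ∞ (deriv φ) :=
  ((contDiff_infty_iff_deriv).1 hφ).2

lemma hcs_of_zero {f g : ℝ → ℝ} (hf : HasCompactSupport f) (h : ∀ x, f x = 0 → g x = 0) :
    HasCompactSupport g :=
  hf.mono fun x hx h0 => hx (h x h0)

lemma integrable_of_zero {f g : ℝ → ℝ} (hg : Continuous g) (hf : HasCompactSupport f)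
    (h : ∀ x, f x = 0 → g x = 0) : Integrable g :=
  hg.integrable_of_hasCompactSupport (hcs_of_zero hf h)

/-- The local cosine with frequency `p`. -/
noncomputable def lc (L p x : ℝ) : ℝ := win L x * Real.cos (p * x)

lemma contDiff_lc (L p : ℝ) : ContDiff ℝ ∞ (lc L p) :=
  (contDiff_win L).mul (Real.contDiff_cos.comp (contDiff_const.mul contDiff_id))

lemma hasCompactSupport_lc (L p : ℝ) : HasCompactSupport (lc L p) :=
  (hasCompactSupport_win L).mul_right

lemma integral_lc_mul {L : ℝ} (hL : 1 ≤ L) (i j : ℕ) :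
    ∫ x, lc L ((i + 1 / 2) * Real.pi / L) x * lc L ((j + 1 / 2) * Real.pi / L) x =
      if i = j then L / 2 else 0 := by
  have hL0 : L ≠ 0 := by linarith
  set p := ((i : ℝ) + 1 / 2) * Real.pi / L with hp
  set q := ((j : ℝ) + 1 / 2) * Real.pi / L with hq
  have hi : ∀ k : ℝ, Integrable (fun x => win L x ^ 2 * Real.cos (k * x)) := by
    intro k
    have hc : Continuous fun x => win L x ^ 2 * Real.cos (k * x) :=
      ((contDiff_win L).continuous.pow 2).mul
        (Real.continuous_cos.comp (continuous_const.mul continuous_id))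
    exact integrable_of_zero hc (hasCompactSupport_win L) fun x hx => by simp [hx]
  have e : (fun x => lc L p x * lc L q x) = fun x =>
      (1 / 2) * (win L x ^ 2 * Real.cos ((p - q) * x)) +
        (1 / 2) * (win L x ^ 2 * Real.cos ((p + q) * x)) := by
    funext x
    unfold lc
    rw [sub_mul, add_mul, Real.cos_sub, Real.cos_add]
    ring
  rw [e, integral_add ((hi _).const_mul _) ((hi _).const_mul _), integral_const_mul,
    integral_const_mul]
  have e1 : (p - q) * L = ((i - j : ℤ) : ℝ) * Real.pi := by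
    rw [hp, hq]; push_cast; field_simp; ring
  have e2 : (p + q) * L = ((i + j + 1 : ℤ) : ℝ) * Real.pi := by
    rw [hp, hq]; push_cast; field_simp; ring
  rw [integral_win_cos hL (by rw [e1]; exact Real.sin_int_mul_pi _),
    integral_win_cos hL (by rw [e2]; exact Real.sin_int_mul_pi _)]
  have h2 : p + q ≠ 0 := by
    have : 0 < p + q := by
      rw [hp, hq]
      have := Real.pi_pos
      have : 0 < L := by linarith
      positivity
    exact this.ne'
  rw [if_neg h2]
  have h3 : (p - q = 0) ↔ i = j := by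
    constructor
    · intro h
      rw [h, zero_mul] at e1
      have h4 : ((i - j : ℤ) : ℝ) = 0 := by
        rcases mul_eq_zero.1 e1.symm with h5 | h5
        · exact h5
        · exact absurd h5 Real.pi_ne_zero
      have h6 : (i - j : ℤ) = 0 := by exact_mod_cast h4
      omega
    · intro h
      rw [hp, hq, h, sub_self]
  simp only [h3]
  split_ifs <;> ring

lemma integral_deriv_lc_sq (L p : ℝ) :
    ∫ x, deriv (lc L p) x ^ 2 = p ^ 2 * (∫ x, lc L p x ^ 2) +
      ∫ x, deriv (win L) x ^ 2 * Real.cos (p * x) ^ 2 := by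
  have hw : ∀ x, HasDerivAt (win L) (deriv (win L) x) x := fun x =>
    ((contDiff_win L).differentiable (by simp) x).hasDerivAt
  have hcos : ∀ x, HasDerivAt (fun x => Real.cos (p * x)) (-(p * Real.sin (p * x))) x := by
    intro x
    have h1 : HasDerivAt (fun x : ℝ => p * x) p x := by
      simpa using (hasDerivAt_id x).const_mul p
    exact (h1.cos).congr_deriv (by ring)
  have hsin : ∀ x, HasDerivAt (fun x => Real.sin (p * x)) (p * Real.cos (p * x)) x := by
    intro x
    have h1 : HasDerivAt (fun x : ℝ => p * x) p x := by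
      simpa using (hasDerivAt_id x).const_mul p
    exact (h1.sin).congr_deriv (by ring)
  have hd : ∀ x, deriv (lc L p) x =
      deriv (win L) x * Real.cos (p * x) - win L x * (p * Real.sin (p * x)) := by
    intro x
    have := ((hw x).mul (hcos x)).deriv
    have h2 : deriv (lc L p) x = _ := this
    rw [h2]; ring
  -- the total derivative
  have hT : ∀ x, HasDerivAt (fun x => win L x ^ 2 * (Real.cos (p * x) * -(p * Real.sin (p * x))))
      (deriv (lc L p) x ^ 2 - p ^ 2 * lc L p x ^ 2 -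
        deriv (win L) x ^ 2 * Real.cos (p * x) ^ 2) x := by
    intro x
    have h := ((hw x).pow 2).mul ((hcos x).mul ((hsin x).const_mul p).neg)
    refine h.congr_deriv ?_
    rw [hd]
    unfold lc
    simp
    ring
  have hcw := (contDiff_win L).continuous
  have hcdw : Continuous (deriv (win L)) := (contDiff_deriv' (contDiff_win L)).continuous
  have hclc := (contDiff_lc L p).continuous
  have hcdlc : Continuous (deriv (lc L p)) := (contDiff_deriv' (contDiff_lc L p)).continuous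
  have hcc : Continuous fun x => Real.cos (p * x) :=
    Real.continuous_cos.comp (continuous_const.mul continuous_id)
  have hcs : Continuous fun x => Real.sin (p * x) :=
    Real.continuous_sin.comp (continuous_const.mul continuous_id)
  have i1 : Integrable fun x => deriv (lc L p) x ^ 2 := by
    have hc : Continuous fun x => deriv (lc L p) x ^ 2 := by fun_prop
    exact integrable_of_zero hc (hasCompactSupport_lc L p).deriv fun x hx => by simp [hx]
  have i2 : Integrable fun x => p ^ 2 * lc L p x ^ 2 := by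
    have hc : Continuous fun x => p ^ 2 * lc L p x ^ 2 := by fun_prop
    exact integrable_of_zero hc (hasCompactSupport_lc L p) fun x hx => by simp [hx]
  have i3 : Integrable fun x => deriv (win L) x ^ 2 * Real.cos (p * x) ^ 2 := by
    have hc : Continuous fun x => deriv (win L) x ^ 2 * Real.cos (p * x) ^ 2 := by fun_prop
    exact integrable_of_zero hc (hasCompactSupport_win L).deriv fun x hx => by simp [hx]
  have i4 : Integrable fun x => win L x ^ 2 * (Real.cos (p * x) * -(p * Real.sin (p * x))) := by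
    have hc : Continuous fun x =>
      win L x ^ 2 * (Real.cos (p * x) * -(p * Real.sin (p * x))) := by fun_prop
    exact integrable_of_zero hc (hasCompactSupport_win L) fun x hx => by simp [hx]
  have h := integral_eq_zero_of_hasDerivAt_of_integrable hT ((i1.sub i2).sub i3) i4
  have h' : (∫ x, (deriv (lc L p) x ^ 2 - p ^ 2 * lc L p x ^ 2 -
      deriv (win L) x ^ 2 * Real.cos (p * x) ^ 2)) = (∫ x, deriv (lc L p) x ^ 2) -
      p ^ 2 * (∫ x, lc L p x ^ 2) - ∫ x, deriv (win L) x ^ 2 * Real.cos (p * x) ^ 2 := by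
    have e1 := integral_sub (i1.sub i2) i3
    have e2 := integral_sub i1 i2
    simp only [Pi.sub_apply] at e1
    rw [e1, e2, integral_const_mul]
  rw [h'] at h
  linarith

/-- The constant `∫ b'²`. -/
noncomputable def Cb : ℝ := ∫ x, deriv bstep x ^ 2

lemma deriv_bstep_eq_zero {x : ℝ} (hx : x < -(1 / 2) ∨ 1 / 2 < x) : deriv bstep x = 0 := by
  rcases hx with h | h
  · have : bstep =ᶠ[𝓝 x] fun _ => 0 := by
      filter_upwards [Iio_mem_nhds h] with y hy
      exact bstep_zero (le_of_lt hy)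
    rw [this.deriv_eq]; simp
  · have : bstep =ᶠ[𝓝 x] fun _ => 1 := by
      filter_upwards [Ioi_mem_nhds h] with y hy
      exact bstep_one (le_of_lt hy)
    rw [this.deriv_eq]; simp

lemma integrable_deriv_bstep_sq : Integrable fun x => deriv bstep x ^ 2 := by
  have hc : Continuous fun x => deriv bstep x ^ 2 :=
    (contDiff_deriv' contDiff_bstep).continuous.pow 2
  refine hc.integrable_of_hasCompactSupport ?_
  refine HasCompactSupport.intro (K := Icc (-(1 / 2)) (1 / 2)) isCompact_Icc fun x hx => ?_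
  simp only [mem_Icc, not_and_or, not_le] at hx
  simp [deriv_bstep_eq_zero hx]

lemma integral_deriv_win_sq_le (L p : ℝ) :
    ∫ x, deriv (win L) x ^ 2 * Real.cos (p * x) ^ 2 ≤ 4 * Cb := by
  have hb : ∀ x, HasDerivAt bstep (deriv bstep x) x := fun x =>
    (contDiff_bstep.differentiable (by simp) x).hasDerivAt
  have hd : ∀ x, deriv (win L) x = deriv bstep x * bstep (L - x) - bstep x * deriv bstep (L - x) := by
    intro x
    have h1 : HasDerivAt (fun x => bstep (L - x)) (-deriv bstep (L - x)) x := by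
      have := (hb (L - x)).comp_const_sub L x
      exact this
    have := ((hb x).mul h1).deriv
    have h2 : deriv (win L) x = _ := this
    rw [h2]; ring
  have i1 : Integrable fun x => 2 * deriv bstep x ^ 2 + 2 * deriv bstep (L - x) ^ 2 :=
    (integrable_deriv_bstep_sq.const_mul 2).add
      ((integrable_deriv_bstep_sq.comp_sub_left L).const_mul 2)
  have h1 : ∫ x, deriv (win L) x ^ 2 * Real.cos (p * x) ^ 2 ≤
      ∫ x, (2 * deriv bstep x ^ 2 + 2 * deriv bstep (L - x) ^ 2) := by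
    refine integral_mono_of_nonneg (Eventually.of_forall fun x => by positivity) i1
      (Eventually.of_forall fun x => ?_)
    simp only
    rw [hd]
    have h1 := sq_le_one_iff_abs_le_one _ |>.2 (abs_bstep_le (L - x))
    have h2 := sq_le_one_iff_abs_le_one _ |>.2 (abs_bstep_le x)
    have h3 := Real.cos_sq_le_one (p * x)
    have h4 : (deriv bstep x * bstep (L - x) - bstep x * deriv bstep (L - x)) ^ 2 ≤
        2 * deriv bstep x ^ 2 + 2 * deriv bstep (L - x) ^ 2 := by
      nlinarith [sq_nonneg (deriv bstep x * bstep (L - x) + bstep x * deriv bstep (L - x)),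
        mul_le_mul_of_nonneg_left h1 (sq_nonneg (deriv bstep x)),
        mul_le_mul_of_nonneg_left h2 (sq_nonneg (deriv bstep (L - x)))]
    nlinarith [sq_nonneg (deriv bstep x * bstep (L - x) - bstep x * deriv bstep (L - x))]
  refine h1.trans (le_of_eq ?_)
  rw [integral_add (integrable_deriv_bstep_sq.const_mul 2)
    ((integrable_deriv_bstep_sq.comp_sub_left L).const_mul 2), integral_const_mul,
    integral_const_mul, integral_sub_left_eq_self (fun x => deriv bstep x ^ 2) volume L]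
  unfold Cb
  ring

lemma Cb_nonneg : 0 ≤ Cb := integral_nonneg fun x => by positivity

/-- Passing from the sphere to the cylinder. -/
lemma cylinder_energy {y : ℝ → ℝ} (hy : ContDiff ℝ ∞ y) (hs : HasCompactSupport y) :
    ∫ s, ((deriv y s + 1 / 2 * (Real.tanh s * y s)) ^ 2 + 3 / 4 * (y s ^ 2 / Real.cosh s ^ 2)) =
      (∫ s, deriv y s ^ 2) + 1 / 4 * ∫ s, y s ^ 2 := by
  have hyd : ∀ s, HasDerivAt y (deriv y s) s := fun s => (hy.differentiable (by simp) s).hasDerivAt
  have hT : ∀ s, HasDerivAt (fun s => (1 / 2 : ℝ) * (Real.tanh s * y s ^ 2))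
      (((deriv y s + 1 / 2 * (Real.tanh s * y s)) ^ 2 + 3 / 4 * (y s ^ 2 / Real.cosh s ^ 2)) -
        (deriv y s ^ 2 + 1 / 4 * y s ^ 2)) s := by
    intro s
    have h := ((hasDerivAt_tanh s).mul ((hyd s).pow 2)).const_mul (1 / 2 : ℝ)
    refine h.congr_deriv ?_
    have h2 := tanh_sq s
    have h3 : 1 / Real.cosh s ^ 2 = 1 - Real.tanh s ^ 2 := by rw [h2]; ring
    rw [h3, div_eq_mul_one_div (y s ^ 2), h3]
    simp
    ring
  have c1 : Continuous y := hy.continuous
  have c2 : Continuous (deriv y) := (contDiff_deriv' hy).continuous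
  have cT : Continuous Real.tanh := continuous_tanh
  have i0 : Integrable fun s => y s ^ 2 := by
    have hc : Continuous fun s => y s ^ 2 := by fun_prop
    exact integrable_of_zero hc hs fun x hx => by simp [hx]
  have i1 : Integrable fun s => deriv y s ^ 2 := by
    have hc : Continuous fun s => deriv y s ^ 2 := by fun_prop
    exact integrable_of_zero hc hs.deriv fun x hx => by simp [hx]
  have i2 : Integrable fun s => deriv y s ^ 2 + 1 / 4 * y s ^ 2 := i1.add (i0.const_mul _)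
  have i3 : Integrable fun s => (1 / 2 : ℝ) * (Real.tanh s * y s ^ 2) := by
    have hc : Continuous fun s => (1 / 2 : ℝ) * (Real.tanh s * y s ^ 2) := by fun_prop
    exact integrable_of_zero hc hs fun x hx => by simp [hx]
  have i4 : Integrable fun s => (deriv y s + 1 / 2 * (Real.tanh s * y s)) ^ 2 +
      3 / 4 * (y s ^ 2 / Real.cosh s ^ 2) := by
    have k1 : Integrable fun s => (deriv y s + 1 / 2 * (Real.tanh s * y s)) ^ 2 := by
      have hc : Continuous fun s => (deriv y s + 1 / 2 * (Real.tanh s * y s)) ^ 2 := by fun_prop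
      have hs' : HasCompactSupport fun s => deriv y s + 1 / 2 * (Real.tanh s * y s) :=
        hs.deriv.add ((hs.mul_left).mul_left)
      exact integrable_of_zero hc hs' fun x hx => by
        rw [hx]; simp
    have k2 : Integrable fun s => y s ^ 2 / Real.cosh s ^ 2 := by
      have hc : Continuous fun s => y s ^ 2 / Real.cosh s ^ 2 :=
        (c1.pow 2).div (Real.continuous_cosh.pow 2) (fun s => pow_ne_zero _ (Real.cosh_pos s).ne')
      exact integrable_of_zero hc hs fun x hx => by simp [hx]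
    exact k1.add (k2.const_mul _)
  have h := integral_eq_zero_of_hasDerivAt_of_integrable hT (i4.sub i2) i3
  have e1 := integral_sub i4 i2
  have e2 := integral_add i1 (i0.const_mul (1 / 4))
  rw [integral_const_mul] at e2
  rw [e1, e2] at h
  linarith

end Pool.Agent.Lib.MP_4a15bf_mp
end

section
/-!
Zonal functions on `S³` from functions on the cylinder.
-/
set_option autoImplicit false

namespace Pool.Agent.Lib.MP_4a15bf_mp

open MeasureTheory Set Filter Topology
open scoped ENNReal ContDiff RealInnerProductSpace Laplacian InnerProductSpace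

/-- The zonal profile of a function on the line. -/
noncomputable def lift (y : ℝ → ℝ) (z : ℝ) : ℝ :=
  open Classical in
  if |z| < 1 then Real.sqrt (Real.cosh (Real.artanh z)) * y (Real.artanh z) else 0

lemma abs_tanh_lt_one (s : ℝ) : |Real.tanh s| < 1 := by
  rw [← sq_lt_one_iff_abs_lt_one, tanh_sq]
  have : 0 < 1 / Real.cosh s ^ 2 := by have := Real.cosh_pos s; positivity
  linarith

lemma lift_tanh (y : ℝ → ℝ) (s : ℝ) : lift y (Real.tanh s) = Real.sqrt (Real.cosh s) * y s := by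
  unfold lift
  rw [if_pos (abs_tanh_lt_one s), Real.artanh_tanh]

lemma contDiffAt_artanh {z : ℝ} (hz : |z| < 1) : ContDiffAt ℝ ∞ Real.artanh z := by
  obtain ⟨h1, h2⟩ := abs_lt.1 hz
  have he : Real.artanh =ᶠ[𝓝 z] fun z => 1 / 2 * Real.log ((1 + z) / (1 - z)) := by
    filter_upwards [Ioo_mem_nhds h1 h2] with x hx
    exact Real.artanh_eq_half_log ⟨hx.1.le, hx.2.le⟩
  refine ContDiffAt.congr_of_eventuallyEq ?_ he
  have h3 : (1 - z) ≠ 0 := by linarith
  have h4 : (1 + z) ≠ 0 := by linarith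
  refine contDiffAt_const.mul (ContDiffAt.log ?_ (div_ne_zero h4 h3))
  exact (contDiffAt_const.add contDiffAt_id).div (contDiffAt_const.sub contDiffAt_id) h3

lemma contDiff_lift {y : ℝ → ℝ} (hy : ContDiff ℝ ∞ y) {A : ℝ}
    (hA : ∀ s, A ≤ |s| → y s = 0) : ContDiff ℝ ∞ (lift y) := by
  rw [contDiff_iff_contDiffAt]
  intro z
  by_cases hz : |z| < 1
  · have he : lift y =ᶠ[𝓝 z] fun z => Real.sqrt (Real.cosh (Real.artanh z)) * y (Real.artanh z) := by
      have : {x : ℝ | |x| < 1} ∈ 𝓝 z := (isOpen_lt continuous_abs continuous_const).mem_nhds hz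
      filter_upwards [this] with x hx
      unfold lift
      rw [if_pos hx]
    refine ContDiffAt.congr_of_eventuallyEq ?_ he
    have ha := contDiffAt_artanh hz
    refine ContDiffAt.mul ?_ (hy.contDiffAt.comp z ha)
    exact (Real.contDiff_cosh.contDiffAt.comp z ha).sqrt (Real.cosh_pos _).ne'
  · have hlt : |Real.tanh A| < |z| := lt_of_lt_of_le (abs_tanh_lt_one A) (not_lt.1 hz)
    have he : lift y =ᶠ[𝓝 z] fun _ => 0 := by
      have : {x : ℝ | |Real.tanh A| < |x|} ∈ 𝓝 z :=
        (isOpen_lt continuous_const continuous_abs).mem_nhds hlt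
      filter_upwards [this] with x hx
      unfold lift
      split_ifs with h1
      · obtain ⟨h2, h3⟩ := abs_lt.1 h1
        have h4 : y (Real.artanh x) = 0 := by
          apply hA
          have hx' : |Real.tanh A| < |x| := hx
          rcases le_total 0 x with h5 | h5
          · rw [abs_of_nonneg h5] at hx'
            have h6 : Real.tanh A < x := lt_of_le_of_lt (le_abs_self _) hx'
            have h7 : -1 < Real.tanh A := (abs_lt.1 (abs_tanh_lt_one A)).1
            have h8 := Real.artanh_lt_artanh h7 h3 h6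
            rw [Real.artanh_tanh] at h8
            exact h8.le.trans (le_abs_self _)
          · rw [abs_of_nonpos h5] at hx'
            have h6 : x < Real.tanh (-A) := by
              rw [Real.tanh_neg]
              have := le_abs_self (Real.tanh A)
              linarith
            have h7 : Real.tanh (-A) < 1 := (abs_lt.1 (abs_tanh_lt_one (-A))).2
            have h8 := Real.artanh_lt_artanh h2 h7 h6
            rw [Real.artanh_tanh] at h8
            have := neg_abs_le (Real.artanh x)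
            linarith
        rw [h4, mul_zero]
      · rfl
    exact contDiffAt_const.congr_of_eventuallyEq he

lemma deriv_lift_tanh {y : ℝ → ℝ} (hy : ContDiff ℝ ∞ y) (hl : ContDiff ℝ ∞ (lift y)) (s : ℝ) :
    deriv (lift y) (Real.tanh s) =
      Real.cosh s ^ 2 * (Real.sqrt (Real.cosh s) * (deriv y s + 1 / 2 * (Real.tanh s * y s))) := by
  have hc := Real.cosh_pos s
  have h1 : HasDerivAt (fun s => lift y (Real.tanh s))
      (deriv (lift y) (Real.tanh s) * (1 / Real.cosh s ^ 2)) s :=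
    ((hl.differentiable (by simp) _).hasDerivAt).comp s (hasDerivAt_tanh s)
  have h2 : (fun s => lift y (Real.tanh s)) = fun s => Real.sqrt (Real.cosh s) * y s := by
    funext s; exact lift_tanh y s
  rw [h2] at h1
  have h3 : HasDerivAt (fun s => Real.sqrt (Real.cosh s) * y s)
      (Real.sinh s / (2 * Real.sqrt (Real.cosh s)) * y s + Real.sqrt (Real.cosh s) * deriv y s) s :=
    ((Real.hasDerivAt_cosh s).sqrt hc.ne').mul ((hy.differentiable (by simp) s).hasDerivAt)
  have h4 := h1.unique h3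
  have hsq : Real.sqrt (Real.cosh s) ^ 2 = Real.cosh s := Real.sq_sqrt hc.le
  have hsp : 0 < Real.sqrt (Real.cosh s) := Real.sqrt_pos.2 hc
  have h5 : Real.sinh s / (2 * Real.sqrt (Real.cosh s)) =
      1 / 2 * (Real.sqrt (Real.cosh s) * Real.tanh s) := by
    rw [Real.tanh_eq_sinh_div_cosh]
    field_simp
    rw [hsq]
  rw [h5] at h4
  field_simp at h4
  linear_combination (1 / 2) * h4

/-- The ratio `vol(S³)/(π/2)`. -/
noncomputable def KK : ℝ := (sigma 3).real univ / (Real.pi / 2)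

lemma integral_zonal' {g : ℝ → ℝ} (hg : Continuous g) :
    ∫ x : Sph 3, g ⟪pole, (x : E 3)⟫ ∂(sigma 3) =
      KK * ∫ s : ℝ, g (Real.tanh s) / Real.cosh s ^ 3 := by
  have h := integral_zonal hg
  have hp := Real.pi_pos
  unfold KK
  field_simp at h ⊢
  linarith

lemma sigma_univ_pos (n : ℕ) : 0 < (sigma n).real univ := by
  have h : sigma n ≠ 0 := by
    unfold sigma
    exact Measure.toSphere_ne_zero _
  rw [Measure.real, ENNReal.toReal_pos_iff]
  exact ⟨by rw [pos_iff_ne_zero]; simpa using h, measure_lt_top _ _⟩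

lemma KK_pos : 0 < KK := by
  unfold KK
  have := sigma_univ_pos 3
  have := Real.pi_pos
  positivity

/-- Energy of a zonal function. -/
lemma energy_lift {y : ℝ → ℝ} (hy : ContDiff ℝ ∞ y) (hs : HasCompactSupport y)
    (hl : ContDiff ℝ ∞ (lift y)) :
    inner2 (fun x : Sph 3 => lift y ⟪pole, (x : E 3)⟫)
      (yamabe fun x : Sph 3 => lift y ⟪pole, (x : E 3)⟫) =
      KK * ((∫ s, deriv y s ^ 2) + 1 / 4 * ∫ s, y s ^ 2) := by
  have hF : ContDiff ℝ ∞ fun x : E 3 => lift y ⟪pole, x⟫ := contDiff_zonal hl pole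
  have hsm : IsSmooth fun x : Sph 3 => lift y ⟪pole, (x : E 3)⟫ :=
    isSmooth_of_contDiff hF fun _ => rfl
  have hdl : Continuous (deriv (lift y)) := (contDiff_deriv' hl).continuous
  have hg : Continuous fun z : ℝ => deriv (lift y) z ^ 2 * (1 - z ^ 2) + 3 / 4 * lift y z ^ 2 := by
    have := hl.continuous
    fun_prop
  have h1 : inner2 (fun x : Sph 3 => lift y ⟪pole, (x : E 3)⟫)
      (yamabe fun x : Sph 3 => lift y ⟪pole, (x : E 3)⟫) =
      ∫ x : Sph 3, (fun z : ℝ => deriv (lift y) z ^ 2 * (1 - z ^ 2) + 3 / 4 * lift y z ^ 2)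
        ⟪pole, (x : E 3)⟫ ∂(sigma 3) := by
    unfold inner2
    have e1 : (fun x : Sph 3 => lift y ⟪pole, (x : E 3)⟫ *
        yamabe (fun x : Sph 3 => lift y ⟪pole, (x : E 3)⟫) x) = fun x : Sph 3 =>
        3 / 4 * lift y ⟪pole, (x : E 3)⟫ ^ 2 -
          lift y ⟪pole, (x : E 3)⟫ * Lap (fun x : E 3 => lift y ⟪pole, x⟫) x := by
      funext x
      unfold yamabe
      rw [laplaceBeltrami_eq hsm hF (fun _ => rfl)]
      push_cast
      ring
    have i1 : Integrable (fun x : Sph 3 => 3 / 4 * lift y ⟪pole, (x : E 3)⟫ ^ 2) (sigma 3) :=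
      integrable_sph (F := fun x : E 3 => 3 / 4 * lift y ⟪pole, x⟫ ^ 2)
        (continuous_const.mul (hF.continuous.pow 2))
    have cLap : Continuous (Lap fun x : E 3 => lift y ⟪pole, x⟫) := by
      unfold Lap
      refine continuous_const.mul (continuous_finsetSum _ fun i _ => continuous_finsetSum _ fun j _ => ?_)
      exact (contDiff_Lie _ (contDiff_Lie _ hF)).continuous
    have i2 : Integrable (fun x : Sph 3 => lift y ⟪pole, (x : E 3)⟫ *
        Lap (fun x : E 3 => lift y ⟪pole, x⟫) x) (sigma 3) :=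
      integrable_sph (F := fun x : E 3 => lift y ⟪pole, x⟫ * Lap (fun x : E 3 => lift y ⟪pole, x⟫) x)
        (hF.continuous.mul cLap)
    rw [e1, integral_sub i1 i2, green hF hF, sub_neg_eq_add]
    have e2 : (fun x : Sph 3 => (1 / 2 : ℝ) * ∑ i, ∑ j,
        Lie (Jf i j) (fun x : E 3 => lift y ⟪pole, x⟫) x *
          Lie (Jf i j) (fun x : E 3 => lift y ⟪pole, x⟫) x) = fun x : Sph 3 =>
        deriv (lift y) ⟪pole, (x : E 3)⟫ ^ 2 * (1 - ⟪pole, (x : E 3)⟫ ^ 2) := by
      funext x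
      have h := sum_quad_zonal pole (x : E 3) (deriv (lift y) ⟪pole, (x : E 3)⟫ ^ 2)
      rw [norm_pole, norm_coe] at h
      simp only [Lie_zonal _ hl]
      rw [show (1 : ℝ) ^ 2 * 1 ^ 2 = 1 by norm_num] at h
      rw [← h]
      congr 1
      refine Finset.sum_congr rfl fun i _ => Finset.sum_congr rfl fun j _ => by ring
    have i3 : Integrable (fun x : Sph 3 =>
        deriv (lift y) ⟪pole, (x : E 3)⟫ ^ 2 * (1 - ⟪pole, (x : E 3)⟫ ^ 2)) (sigma 3) :=
      integrable_sph (F := fun x : E 3 => deriv (lift y) ⟪pole, x⟫ ^ 2 * (1 - ⟪pole, x⟫ ^ 2))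
        (((hdl.comp (continuous_const.inner continuous_id)).pow 2).mul
          (continuous_const.sub ((continuous_const.inner continuous_id).pow 2)))
    rw [e2, ← integral_add i1 i3]
    congr 1
    funext x
    simp only
    ring
  rw [h1, integral_zonal' hg, ← cylinder_energy hy hs]
  congr 2
  funext s
  rw [deriv_lift_tanh hy hl, lift_tanh, tanh_sq]
  have hc := Real.cosh_pos s
  have hsq : Real.sqrt (Real.cosh s) ^ 2 = Real.cosh s := Real.sq_sqrt hc.le
  rw [mul_pow, mul_pow, mul_pow, hsq]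
  field_simp
  ring

end Pool.Agent.Lib.MP_4a15bf_mp
end

section
/-!
The long-cylinder weights on `S³`.
-/
set_option autoImplicit false

namespace Pool.Agent.Lib.MP_4a15bf_mp

open MeasureTheory Set Filter Topology
open scoped ENNReal ContDiff RealInnerProductSpace Laplacian InnerProductSpace

/-- `tanh² A`. -/
noncomputable def aa (A : ℝ) : ℝ := 1 - 1 / Real.cosh A ^ 2

lemma aa_lt_one (A : ℝ) : aa A < 1 := by
  unfold aa
  have : 0 < 1 / Real.cosh A ^ 2 := by have := Real.cosh_pos A; positivity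
  linarith

lemma aa_lt {A : ℝ} (hA : 0 ≤ A) : aa A < aa (A + 1) := by
  unfold aa
  have h1 : Real.cosh A < Real.cosh (A + 1) := by
    rw [Real.cosh_lt_cosh, abs_of_nonneg hA, abs_of_nonneg (by linarith)]
    linarith
  have h0 := Real.cosh_pos A
  have : 1 / Real.cosh (A + 1) ^ 2 < 1 / Real.cosh A ^ 2 := by
    apply one_div_lt_one_div_of_lt (by positivity)
    exact pow_lt_pow_left₀ h1 h0.le (by norm_num)
  linarith

/-- The denominator. -/
noncomputable def Dw (A z : ℝ) : ℝ :=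
  1 - z ^ 2 * (1 - Real.smoothTransition ((z ^ 2 - aa A) / (aa (A + 1) - aa A)))

lemma contDiff_Dw (A : ℝ) : ContDiff ℝ ∞ (Dw A) := by
  unfold Dw
  refine contDiff_const.sub ((contDiff_id.pow 2).mul (contDiff_const.sub
    (Real.smoothTransition.contDiff.comp ?_)))
  exact ((contDiff_id.pow 2).sub contDiff_const).div_const _

lemma Dw_ge (A z : ℝ) : 1 - z ^ 2 ≤ Dw A z := by
  unfold Dw
  have := Real.smoothTransition.nonneg ((z ^ 2 - aa A) / (aa (A + 1) - aa A))
  nlinarith [sq_nonneg z]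

lemma Dw_le (A z : ℝ) : Dw A z ≤ 1 := by
  unfold Dw
  have := Real.smoothTransition.le_one ((z ^ 2 - aa A) / (aa (A + 1) - aa A))
  nlinarith [sq_nonneg z]

lemma Dw_one {A z : ℝ} (hA : 0 ≤ A) (hz : aa (A + 1) ≤ z ^ 2) : Dw A z = 1 := by
  unfold Dw
  have h := aa_lt hA
  rw [Real.smoothTransition.one_of_one_le]
  · ring
  · rw [one_le_div (by linarith)]; linarith

lemma Dw_small {A z : ℝ} (hA : 0 ≤ A) (hz : z ^ 2 ≤ aa A) : Dw A z = 1 - z ^ 2 := by
  unfold Dw
  have h := aa_lt hA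
  rw [Real.smoothTransition.zero_of_nonpos]
  · ring
  · apply div_nonpos_of_nonpos_of_nonneg <;> linarith

lemma Dw_pos {A : ℝ} (hA : 0 ≤ A) (z : ℝ) : 0 < Dw A z := by
  rcases le_total (aa (A + 1)) (z ^ 2) with h | h
  · rw [Dw_one hA h]; norm_num
  · have := Dw_ge A z
    have := aa_lt_one (A + 1)
    linarith

/-- The unnormalised profile of the weight. -/
noncomputable def Fw (A z : ℝ) : ℝ := (Dw A z)⁻¹

lemma contDiff_Fw {A : ℝ} (hA : 0 ≤ A) : ContDiff ℝ ∞ (Fw A) :=
  (contDiff_Dw A).inv fun z => (Dw_pos hA z).ne'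

lemma Fw_pos {A : ℝ} (hA : 0 ≤ A) (z : ℝ) : 0 < Fw A z := inv_pos.2 (Dw_pos hA z)

lemma one_le_Fw {A : ℝ} (hA : 0 ≤ A) (z : ℝ) : 1 ≤ Fw A z :=
  (one_le_inv₀ (Dw_pos hA z)).2 (Dw_le A z)

lemma Fw_tanh_le {A : ℝ} (_hA : 0 ≤ A) (s : ℝ) : Fw A (Real.tanh s) ≤ Real.cosh s ^ 2 := by
  have h := Dw_ge A (Real.tanh s)
  rw [tanh_sq] at h
  have hc := Real.cosh_pos s
  unfold Fw
  have h2 : 1 / Real.cosh s ^ 2 ≤ Dw A (Real.tanh s) := by linarith
  have h3 := inv_anti₀ (by positivity) h2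
  simpa using h3

lemma tanh_sq_le {s A : ℝ} (hs : |s| ≤ A) : Real.tanh s ^ 2 ≤ aa A := by
  rw [tanh_sq, aa]
  have h1 : Real.cosh s ≤ Real.cosh A := by
    rw [Real.cosh_le_cosh]; exact hs.trans (le_abs_self A)
  have h0 := Real.cosh_pos s
  have : 1 / Real.cosh A ^ 2 ≤ 1 / Real.cosh s ^ 2 := by
    apply one_div_le_one_div_of_le (by positivity)
    exact pow_le_pow_left₀ h0.le h1 2
  linarith

lemma le_tanh_sq {s A : ℝ} (hA : 0 ≤ A) (hs : A ≤ |s|) : aa A ≤ Real.tanh s ^ 2 := by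
  rw [tanh_sq, aa]
  have h1 : Real.cosh A ≤ Real.cosh s := by
    rw [Real.cosh_le_cosh, abs_of_nonneg hA]; exact hs
  have h0 := Real.cosh_pos A
  have : 1 / Real.cosh s ^ 2 ≤ 1 / Real.cosh A ^ 2 := by
    apply one_div_le_one_div_of_le (by positivity)
    exact pow_le_pow_left₀ h0.le h1 2
  linarith

lemma Fw_tanh {A s : ℝ} (hA : 0 ≤ A) (hs : |s| ≤ A) : Fw A (Real.tanh s) = Real.cosh s ^ 2 := by
  unfold Fw
  rw [Dw_small hA (tanh_sq_le hs), tanh_sq]
  simp

lemma Fw_tanh_out {A s : ℝ} (hA : 0 ≤ A) (hs : A + 1 ≤ |s|) : Fw A (Real.tanh s) = 1 := by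
  unfold Fw
  rw [Dw_one hA (le_tanh_sq (by linarith) hs)]
  simp

/-- The total mass of the unnormalised weight on the cylinder. -/
noncomputable def IF (A : ℝ) : ℝ := ∫ s : ℝ, (Fw A (Real.tanh s)) ^ (3 / 2 : ℝ) / Real.cosh s ^ 3

lemma cosh_rpow (s : ℝ) : (Real.cosh s ^ 2) ^ (3 / 2 : ℝ) = Real.cosh s ^ 3 := by
  have h := Real.cosh_pos s
  rw [← Real.rpow_natCast, ← Real.rpow_mul h.le, ← Real.rpow_natCast]
  norm_num

lemma continuous_Fw_rpow {A : ℝ} (hA : 0 ≤ A) : Continuous fun z => Fw A z ^ (3 / 2 : ℝ) :=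
  (contDiff_Fw hA).continuous.rpow_const fun z => Or.inl (Fw_pos hA z).ne'

lemma integrable_IF {A : ℝ} (hA : 0 ≤ A) :
    Integrable fun s : ℝ => (Fw A (Real.tanh s)) ^ (3 / 2 : ℝ) / Real.cosh s ^ 3 := by
  obtain ⟨C, hC⟩ : ∃ C, ∀ z ∈ Icc (-1 : ℝ) 1, ‖Fw A z ^ (3 / 2 : ℝ)‖ ≤ C :=
    isCompact_Icc.exists_bound_of_continuousOn (continuous_Fw_rpow hA).continuousOn
  exact integrable_cosh_pow_neg _ ((continuous_Fw_rpow hA).comp continuous_tanh) C
    fun s => hC _ (tanh_mem_Icc s)

lemma IF_ge {A : ℝ} (hA : 0 ≤ A) : Real.pi / 2 ≤ IF A := by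
  rw [← Mm_zero]
  unfold Mm IF
  refine integral_mono (integrable_Mm 0) (integrable_IF hA) fun s => ?_
  have hc := Real.cosh_pos s
  simp only [pow_zero]
  apply div_le_div_of_nonneg_right _ (by positivity)
  exact Real.one_le_rpow (one_le_Fw hA _) (by norm_num)

lemma IF_le {A : ℝ} (hA : 0 ≤ A) : IF A ≤ 2 * (A + 1) + Real.pi / 2 := by
  have h1 : IF A ≤ ∫ s : ℝ, ((Icc (-(A + 1)) (A + 1)).indicator (fun _ => (1 : ℝ)) s +
      Real.tanh s ^ 0 / Real.cosh s ^ 3) := by
    unfold IF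
    refine integral_mono (integrable_IF hA) ?_ fun s => ?_
    · refine Integrable.add ?_ (integrable_Mm 0)
      rw [integrable_indicator_iff measurableSet_Icc]
      exact integrableOn_const (by simp) 
    · have hc := Real.cosh_pos s
      have hF := Fw_pos hA (Real.tanh s)
      simp only [pow_zero]
      by_cases hs : s ∈ Icc (-(A + 1)) (A + 1)
      · rw [indicator_of_mem hs]
        have h2 : (Fw A (Real.tanh s)) ^ (3 / 2 : ℝ) / Real.cosh s ^ 3 ≤ 1 := by
          rw [div_le_one (by positivity), ← cosh_rpow]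
          exact Real.rpow_le_rpow hF.le (Fw_tanh_le hA s) (by norm_num)
        have h3 : 0 < 1 / Real.cosh s ^ 3 := by positivity
        linarith
      · rw [indicator_of_notMem hs, zero_add]
        have hs' : A + 1 ≤ |s| := by
          by_contra hlt
          push Not at hlt
          exact hs ⟨(abs_lt.1 hlt).1.le, (abs_lt.1 hlt).2.le⟩
        rw [Fw_tanh_out hA hs', Real.one_rpow]
  refine h1.trans (le_of_eq ?_)
  rw [integral_add]
  · rw [integral_indicator measurableSet_Icc]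
    have h2 : ∫ s : ℝ, Real.tanh s ^ 0 / Real.cosh s ^ 3 = Real.pi / 2 := Mm_zero
    rw [h2]
    simp
    rw [max_eq_left (by linarith)]
    ring
  · rw [integrable_indicator_iff measurableSet_Icc]
    exact integrableOn_const (by simp)
  · exact integrable_Mm 0

/-- The normalising factor. -/
noncomputable def kap (A : ℝ) : ℝ := ((Real.pi / 2) / IF A) ^ (2 / 3 : ℝ)

lemma IF_pos {A : ℝ} (hA : 0 ≤ A) : 0 < IF A := lt_of_lt_of_le (by have := Real.pi_pos; positivity) (IF_ge hA)

lemma kap_pos {A : ℝ} (hA : 0 ≤ A) : 0 < kap A := by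
  have := IF_pos hA
  have := Real.pi_pos
  unfold kap
  positivity

lemma kap_rpow {A : ℝ} (hA : 0 ≤ A) : kap A ^ (3 / 2 : ℝ) = (Real.pi / 2) / IF A := by
  have := IF_pos hA
  have := Real.pi_pos
  unfold kap
  rw [← Real.rpow_mul (by positivity)]
  norm_num

/-- The weight. -/
noncomputable def Wt (A : ℝ) (x : Sph 3) : ℝ := kap A * Fw A ⟪pole, (x : E 3)⟫

lemma Wt_pos {A : ℝ} (hA : 0 ≤ A) (x : Sph 3) : 0 < Wt A x := mul_pos (kap_pos hA) (Fw_pos hA _)

lemma isWeight_Wt {A : ℝ} (hA : 0 ≤ A) : IsWeight (Wt A) := by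
  refine ⟨?_, Wt_pos hA, ?_⟩
  · refine isSmooth_of_contDiff (F := fun x : E 3 => kap A * Fw A ⟪pole, x⟫) ?_ fun _ => rfl
    exact contDiff_const.mul (contDiff_zonal (contDiff_Fw hA) pole)
  · have e : (fun x : Sph 3 => Wt A x ^ (((3 : ℕ) : ℝ) / 2)) = fun x : Sph 3 =>
        kap A ^ (3 / 2 : ℝ) * (Fw A ⟪pole, (x : E 3)⟫) ^ (3 / 2 : ℝ) := by
      funext x
      unfold Wt
      rw [show (((3 : ℕ) : ℝ) / 2) = 3 / 2 by norm_num,
        Real.mul_rpow (kap_pos hA).le (Fw_pos hA _).le]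
    have hI := IF_pos hA
    have hp := Real.pi_pos
    rw [e, integral_const_mul, integral_zonal' (continuous_Fw_rpow hA), kap_rpow hA]
    have e2 : ∫ s : ℝ, (Fw A (Real.tanh s)) ^ (3 / 2 : ℝ) / Real.cosh s ^ 3 = IF A := rfl
    rw [e2, KK]
    field_simp

end Pool.Agent.Lib.MP_4a15bf_mp
end

section
/-!
The lower bound for `C(W)` for the long-cylinder weights.
-/
set_option autoImplicit false

namespace Pool.Agent.Lib.MP_4a15bf_mp

open MeasureTheory Set Filter Topology
open scoped ENNReal ContDiff RealInnerProductSpace Laplacian InnerProductSpace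

/-- Frequencies. -/
noncomputable def pj (R : ℝ) (j : ℕ) : ℝ := ((j : ℝ) + 1 / 2) * Real.pi / (2 * R)

/-- Test functions on the line. -/
noncomputable def Yj (R : ℝ) (j : ℕ) (s : ℝ) : ℝ :=
  Real.sqrt (1 / (KK * kap (R + 1 / 2) * R)) * lc (2 * R) (pj R j) (s + R)

lemma contDiff_Yj (R : ℝ) (j : ℕ) : ContDiff ℝ ∞ (Yj R j) :=
  contDiff_const.mul ((contDiff_lc _ _).comp (contDiff_id.add contDiff_const))

lemma Yj_eq_zero {R : ℝ} (j : ℕ) {s : ℝ} (hs : R + 1 / 2 ≤ |s|) : Yj R j s = 0 := by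
  unfold Yj lc
  rcases le_total 0 s with h | h
  · rw [abs_of_nonneg h] at hs
    rw [win_zero_right (by linarith)]; simp
  · rw [abs_of_nonpos h] at hs
    rw [win_zero_left (by linarith)]; simp

lemma hasCompactSupport_Yj (R : ℝ) (j : ℕ) : HasCompactSupport (Yj R j) := by
  refine HasCompactSupport.intro (K := Icc (-(R + 1 / 2)) (R + 1 / 2)) isCompact_Icc fun s hs => ?_
  apply Yj_eq_zero
  by_contra hlt
  push Not at hlt
  exact hs ⟨(abs_lt.1 hlt).1.le, (abs_lt.1 hlt).2.le⟩

lemma integral_Yj_mul {R : ℝ} (hR : 1 ≤ R) (i j : ℕ) :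
    KK * kap (R + 1 / 2) * ∫ s, Yj R i s * Yj R j s = if i = j then 1 else 0 := by
  have hK := KK_pos
  have hk := kap_pos (A := R + 1 / 2) (by linarith)
  have e : (fun s => Yj R i s * Yj R j s) = fun s =>
      (1 / (KK * kap (R + 1 / 2) * R)) *
        (fun x => lc (2 * R) (pj R i) x * lc (2 * R) (pj R j) x) (s + R) := by
    funext s
    unfold Yj
    have h2 : Real.sqrt (1 / (KK * kap (R + 1 / 2) * R)) * Real.sqrt (1 / (KK * kap (R + 1 / 2) * R)) =
        1 / (KK * kap (R + 1 / 2) * R) := Real.mul_self_sqrt (by positivity)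
    simp only
    linear_combination (lc (2 * R) (pj R i) (s + R) * lc (2 * R) (pj R j) (s + R)) * h2
  rw [e, integral_const_mul, integral_add_right_eq_self
    (fun x => lc (2 * R) (pj R i) x * lc (2 * R) (pj R j) x) R]
  have h := integral_lc_mul (L := 2 * R) (by linarith) i j
  unfold pj
  rw [h]
  generalize kap (R + 1 / 2) = k at hk ⊢
  split_ifs
  · field_simp
  · simp

lemma energy_Yj {R : ℝ} (hR : 1 ≤ R) (j : ℕ) :
    KK * ((∫ s, deriv (Yj R j) s ^ 2) + 1 / 4 * ∫ s, Yj R j s ^ 2) ≤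
      (1 / kap (R + 1 / 2)) * (pj R j ^ 2 + 1 / 4 + 4 * Cb / R) := by
  have hK := KK_pos
  have hk := kap_pos (A := R + 1 / 2) (by linarith)
  set c := Real.sqrt (1 / (KK * kap (R + 1 / 2) * R)) with hc
  have hc2 : c ^ 2 = 1 / (KK * kap (R + 1 / 2) * R) := Real.sq_sqrt (by positivity)
  have hd : ∀ s, deriv (Yj R j) s = c * deriv (lc (2 * R) (pj R j)) (s + R) := by
    intro s
    have h1 : HasDerivAt (lc (2 * R) (pj R j)) (deriv (lc (2 * R) (pj R j)) (s + R)) (s + R) :=
      ((contDiff_lc _ _).differentiable (by simp) _).hasDerivAt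
    have h2 := (h1.comp_add_const s R).const_mul c
    exact h2.deriv
  have e1 : (fun s => deriv (Yj R j) s ^ 2) = fun s =>
      c ^ 2 * (fun x => deriv (lc (2 * R) (pj R j)) x ^ 2) (s + R) := by
    funext s; rw [hd]; ring
  have e2 : (fun s => Yj R j s ^ 2) = fun s =>
      c ^ 2 * (fun x => lc (2 * R) (pj R j) x ^ 2) (s + R) := by
    funext s
    simp only [Yj]
    rw [← hc]; ring
  rw [e1, e2, integral_const_mul, integral_const_mul,
    integral_add_right_eq_self (fun x => deriv (lc (2 * R) (pj R j)) x ^ 2) R,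
    integral_add_right_eq_self (fun x => lc (2 * R) (pj R j) x ^ 2) R,
    integral_deriv_lc_sq]
  have h1 : ∫ x, lc (2 * R) (pj R j) x ^ 2 = R := by
    have h := integral_lc_mul (L := 2 * R) (by linarith) j j
    rw [if_pos rfl] at h
    have e3 : (fun x => lc (2 * R) (pj R j) x ^ 2) = fun x =>
        lc (2 * R) ((↑j + 1 / 2) * Real.pi / (2 * R)) x * lc (2 * R) ((↑j + 1 / 2) * Real.pi / (2 * R)) x := by
      funext x; unfold pj; ring
    rw [e3, h]; ring
  have h2 := integral_deriv_win_sq_le (2 * R) (pj R j)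
  rw [h1, hc2]
  have h3 : KK * (1 / (KK * kap (R + 1 / 2) * R) * (pj R j ^ 2 * R +
      ∫ x, deriv (win (2 * R)) x ^ 2 * Real.cos (pj R j * x) ^ 2) +
      1 / 4 * (1 / (KK * kap (R + 1 / 2) * R) * R)) =
      (1 / kap (R + 1 / 2)) * (pj R j ^ 2 + 1 / 4 +
        (∫ x, deriv (win (2 * R)) x ^ 2 * Real.cos (pj R j * x) ^ 2) / R) := by
    field_simp
    ring
  rw [h3]
  gcongr

/-- Test functions on the sphere. -/
noncomputable def vj (R : ℝ) (j : ℕ) (x : Sph 3) : ℝ :=
  Wt (R + 1 / 2) x ^ (1 / 2 : ℝ) * lift (Yj R j) ⟪pole, (x : E 3)⟫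

lemma contDiff_lift_Yj (R : ℝ) (j : ℕ) : ContDiff ℝ ∞ (lift (Yj R j)) :=
  contDiff_lift (contDiff_Yj R j) (A := R + 1 / 2) fun _ hs => Yj_eq_zero j hs

lemma isSmooth_vj {R : ℝ} (hR : 1 ≤ R) (j : ℕ) : IsSmooth (vj R j) := by
  have hA : 0 ≤ R + 1 / 2 := by linarith
  refine isSmooth_of_contDiff (F := fun x : E 3 =>
    (kap (R + 1 / 2) * Fw (R + 1 / 2) ⟪pole, x⟫) ^ (1 / 2 : ℝ) * lift (Yj R j) ⟪pole, x⟫) ?_
    fun _ => rfl
  refine ContDiff.mul ?_ (contDiff_zonal (contDiff_lift_Yj R j) pole)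
  refine ContDiff.rpow_const_of_ne (contDiff_const.mul (contDiff_zonal (contDiff_Fw hA) pole))
    fun x => ?_
  exact (mul_pos (kap_pos hA) (Fw_pos hA _)).ne'

lemma Yj_weight {R : ℝ} (hR : 1 ≤ R) (i j : ℕ) (s : ℝ) :
    (kap (R + 1 / 2) * Fw (R + 1 / 2) (Real.tanh s) * (lift (Yj R i) (Real.tanh s) *
      lift (Yj R j) (Real.tanh s))) / Real.cosh s ^ 3 = kap (R + 1 / 2) * (Yj R i s * Yj R j s) := by
  have hA : 0 ≤ R + 1 / 2 := by linarith
  rw [lift_tanh, lift_tanh]
  by_cases hs : |s| ≤ R + 1 / 2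
  · rw [Fw_tanh hA hs]
    have hc := Real.cosh_pos s
    have hsq : Real.sqrt (Real.cosh s) ^ 2 = Real.cosh s := Real.sq_sqrt hc.le
    rw [div_eq_iff (by positivity)]
    linear_combination (kap (R + 1 / 2) * Real.cosh s ^ 2 * Yj R i s * Yj R j s) * hsq
  · rw [Yj_eq_zero i (not_le.1 hs).le]
    simp

lemma inner2_vj {R : ℝ} (hR : 1 ≤ R) (i j : ℕ) :
    inner2 (vj R i) (vj R j) = if i = j then 1 else 0 := by
  have hA : 0 ≤ R + 1 / 2 := by linarith
  have e : (fun x : Sph 3 => vj R i x * vj R j x) = fun x : Sph 3 =>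
      (fun z : ℝ => kap (R + 1 / 2) * Fw (R + 1 / 2) z * (lift (Yj R i) z * lift (Yj R j) z))
        ⟪pole, (x : E 3)⟫ := by
    funext x
    have hW := Wt_pos hA x
    have h1 : Wt (R + 1 / 2) x ^ (1 / 2 : ℝ) * Wt (R + 1 / 2) x ^ (1 / 2 : ℝ) = Wt (R + 1 / 2) x := by
      rw [← Real.rpow_add hW]; norm_num
    unfold vj
    simp only
    calc _ = (Wt (R + 1 / 2) x ^ (1 / 2 : ℝ) * Wt (R + 1 / 2) x ^ (1 / 2 : ℝ)) *
          (lift (Yj R i) ⟪pole, (x : E 3)⟫ * lift (Yj R j) ⟪pole, (x : E 3)⟫) := by ring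
      _ = _ := by rw [h1]; rfl
  have hg : Continuous fun z : ℝ =>
      kap (R + 1 / 2) * Fw (R + 1 / 2) z * (lift (Yj R i) z * lift (Yj R j) z) :=
    (continuous_const.mul (contDiff_Fw hA).continuous).mul
      ((contDiff_lift_Yj R i).continuous.mul (contDiff_lift_Yj R j).continuous)
  unfold inner2
  rw [e, integral_zonal' hg]
  simp only [Yj_weight hR]
  rw [integral_const_mul, ← mul_assoc, integral_Yj_mul hR]

lemma yamabeW_vj {R : ℝ} (hR : 1 ≤ R) (j : ℕ) (x : Sph 3) :
    yamabeW (Wt (R + 1 / 2)) (vj R j) x = Wt (R + 1 / 2) x ^ (-(1 / 2) : ℝ) *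
      yamabe (fun x : Sph 3 => lift (Yj R j) ⟪pole, (x : E 3)⟫) x := by
  have hA : 0 ≤ R + 1 / 2 := by linarith
  unfold yamabeW
  congr 2
  funext y
  have hW := Wt_pos hA y
  unfold vj
  rw [← mul_assoc, ← Real.rpow_add hW]
  norm_num

lemma energy_vj {R : ℝ} (hR : 1 ≤ R) (j : ℕ) :
    inner2 (vj R j) (yamabeW (Wt (R + 1 / 2)) (vj R j)) ≤
      (1 / kap (R + 1 / 2)) * (pj R j ^ 2 + 1 / 4 + 4 * Cb / R) := by
  have hA : 0 ≤ R + 1 / 2 := by linarith
  have e : inner2 (vj R j) (yamabeW (Wt (R + 1 / 2)) (vj R j)) =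
      inner2 (fun x : Sph 3 => lift (Yj R j) ⟪pole, (x : E 3)⟫)
        (yamabe fun x : Sph 3 => lift (Yj R j) ⟪pole, (x : E 3)⟫) := by
    unfold inner2
    congr 1
    funext x
    have hW := Wt_pos hA x
    have h1 : Wt (R + 1 / 2) x ^ (1 / 2 : ℝ) * Wt (R + 1 / 2) x ^ (-(1 / 2) : ℝ) = 1 := by
      rw [← Real.rpow_add hW]; norm_num
    rw [yamabeW_vj hR]
    unfold vj
    calc _ = (Wt (R + 1 / 2) x ^ (1 / 2 : ℝ) * Wt (R + 1 / 2) x ^ (-(1 / 2) : ℝ)) *
          (lift (Yj R j) ⟪pole, (x : E 3)⟫ *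
            yamabe (fun x : Sph 3 => lift (Yj R j) ⟪pole, (x : E 3)⟫) x) := by ring
      _ = _ := by rw [h1, one_mul]
  rw [e, energy_lift (contDiff_Yj R j) (hasCompactSupport_Yj R j) (contDiff_lift_Yj R j)]
  exact energy_Yj hR j

/-- The lower bound for the best constant of the long-cylinder weight. -/
theorem bestConst_ge {R : ℝ} (hR : 1 ≤ R) (J : ℕ) :
    ENNReal.ofReal (8 * ((Real.pi / 2) / IF (R + 1 / 2)) *
      ∑ j ∈ Finset.range J, Real.exp (-4 * (pj R j ^ 2 + 1 / 4 + 4 * Cb / R))) ≤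
      bestConst (Wt (R + 1 / 2)) := by
  have hA : 0 ≤ R + 1 / 2 := by linarith
  have hk := kap_pos hA
  have ht : 0 < 4 * kap (R + 1 / 2) := by positivity
  have hI := IF_pos hA
  have hpi := Real.pi_pos
  have h1 : ENNReal.ofReal ((4 * kap (R + 1 / 2)) ^ (((3 : ℕ) : ℝ) / 2)) *
      heatTrace (Wt (R + 1 / 2)) (4 * kap (R + 1 / 2)) ≤ bestConst (Wt (R + 1 / 2)) := by
    unfold bestConst
    exact le_iSup₂_of_le (4 * kap (R + 1 / 2)) ht le_rfl
  refine le_trans ?_ h1
  have h2 : (4 * kap (R + 1 / 2)) ^ (((3 : ℕ) : ℝ) / 2) = 8 * ((Real.pi / 2) / IF (R + 1 / 2)) := by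
    rw [show (((3 : ℕ) : ℝ) / 2) = 3 / 2 by norm_num, Real.mul_rpow (by norm_num) hk.le,
      kap_rpow hA]
    congr 1
    rw [show (4 : ℝ) = 2 ^ (2 : ℝ) by norm_num, ← Real.rpow_mul (by norm_num)]
    norm_num
  rw [h2, ENNReal.ofReal_mul (by positivity)]
  gcongr
  have h3 : IsSmoothOrthonormal (fun j : Fin J => vj R j) := by
    refine ⟨fun i => isSmooth_vj hR i, fun i j => ?_⟩
    rw [inner2_vj hR]
    simp only [Fin.ext_iff]
  have h4 : ∑ j : Fin J, ENNReal.ofReal (Real.exp (-(4 * kap (R + 1 / 2)) *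
      inner2 (vj R j) (yamabeW (Wt (R + 1 / 2)) (vj R j)))) ≤
      heatTrace (Wt (R + 1 / 2)) (4 * kap (R + 1 / 2)) := by
    unfold heatTrace
    exact le_iSup₂_of_le J (fun j : Fin J => vj R j) (le_iSup_of_le h3 le_rfl)
  refine le_trans ?_ h4
  rw [ENNReal.ofReal_sum_of_nonneg (fun j _ => (Real.exp_pos _).le), Finset.sum_range]
  refine Finset.sum_le_sum fun j _ => ENNReal.ofReal_le_ofReal (Real.exp_le_exp.2 ?_)
  have h5 := energy_vj hR (j : ℕ)
  have h6 : 4 * kap (R + 1 / 2) * inner2 (vj R j) (yamabeW (Wt (R + 1 / 2)) (vj R j)) ≤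
      4 * kap (R + 1 / 2) * ((1 / kap (R + 1 / 2)) * (pj R j ^ 2 + 1 / 4 + 4 * Cb / R)) :=
    mul_le_mul_of_nonneg_left h5 ht.le
  have h7 : 4 * kap (R + 1 / 2) * ((1 / kap (R + 1 / 2)) * (pj R j ^ 2 + 1 / 4 + 4 * Cb / R)) =
      4 * (pj R j ^ 2 + 1 / 4 + 4 * Cb / R) := by
    have h8 : ∀ k X : ℝ, 0 < k → 4 * k * ((1 / k) * X) = 4 * X := by
      intro k X hk
      field_simp
    exact h8 _ _ hk
  linarith

end Pool.Agent.Lib.MP_4a15bf_mp
end

section
/-!
The limit of long cylinders.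
-/
set_option autoImplicit false

namespace Pool.Agent.Lib.MP_4a15bf_mp

open MeasureTheory Set Filter Topology
open scoped ENNReal ContDiff

lemma sum_ge (R : ℝ) (hR : 1 ≤ R) (J : ℕ) :
    (2 * R / Real.pi) * ((∫ p in (0 : ℝ)..(Real.pi / (2 * R) * (1 / 2 + J)), Real.exp (-4 * p ^ 2)) -
      Real.pi / (4 * R)) ≤ ∑ j ∈ Finset.range J, Real.exp (-4 * pj R j ^ 2) := by
  have hpi := Real.pi_pos
  set h := Real.pi / (2 * R) with hh
  have hh0 : 0 < h := by positivity
  have hanti : AntitoneOn (fun x : ℝ => Real.exp (-4 * (h * x) ^ 2)) (Icc (1 / 2) (1 / 2 + (J : ℝ))) := by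
    intro x hx y hy hxy
    simp only
    apply Real.exp_le_exp.2
    have hx0 : 0 ≤ x := by linarith [hx.1]
    have : (h * x) ^ 2 ≤ (h * y) ^ 2 :=
      pow_le_pow_left₀ (by positivity) (mul_le_mul_of_nonneg_left hxy hh0.le) 2
    linarith
  have h1 := hanti.integral_le_sum
  have h2 : ∑ i ∈ Finset.range J, Real.exp (-4 * (h * (1 / 2 + (i : ℝ))) ^ 2) =
      ∑ j ∈ Finset.range J, Real.exp (-4 * pj R j ^ 2) := by
    refine Finset.sum_congr rfl fun j _ => ?_
    have : h * (1 / 2 + (j : ℝ)) = pj R j := by unfold pj; rw [hh]; ring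
    rw [this]
  rw [h2] at h1
  refine le_trans ?_ h1
  have h3 : ∫ x in (1 / 2 : ℝ)..(1 / 2 + (J : ℝ)), Real.exp (-4 * (h * x) ^ 2) =
      h⁻¹ * ∫ p in (h * (1 / 2))..(h * (1 / 2 + J)), Real.exp (-4 * p ^ 2) := by
    have := intervalIntegral.integral_comp_mul_left (fun p => Real.exp (-4 * p ^ 2)) hh0.ne'
      (a := (1 / 2 : ℝ)) (b := 1 / 2 + (J : ℝ))
    simpa using this
  rw [h3]
  have hc : Continuous fun p : ℝ => Real.exp (-4 * p ^ 2) := by fun_prop
  have h4 : ∫ p in (h * (1 / 2))..(h * (1 / 2 + J)), Real.exp (-4 * p ^ 2) =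
      (∫ p in (0 : ℝ)..(h * (1 / 2 + J)), Real.exp (-4 * p ^ 2)) -
        ∫ p in (0 : ℝ)..(h * (1 / 2)), Real.exp (-4 * p ^ 2) := by
    rw [intervalIntegral.integral_interval_sub_left (hc.intervalIntegrable _ _)
      (hc.intervalIntegrable _ _)]
  have h5 : ∫ p in (0 : ℝ)..(h * (1 / 2)), Real.exp (-4 * p ^ 2) ≤ Real.pi / (4 * R) := by
    have : ∫ p in (0 : ℝ)..(h * (1 / 2)), Real.exp (-4 * p ^ 2) ≤
        ∫ p in (0 : ℝ)..(h * (1 / 2)), (1 : ℝ) := by
      apply intervalIntegral.integral_mono_on (by positivity) (hc.intervalIntegrable _ _)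
        (by simp)
      intro x _
      rw [Real.exp_le_one_iff]
      nlinarith [sq_nonneg x]
    refine this.trans (le_of_eq ?_)
    simp [hh]
    field_simp
    norm_num
  have h6 : h⁻¹ = 2 * R / Real.pi := by rw [hh]; field_simp
  rw [h6, h4]
  gcongr

lemma tendsto_gauss : Tendsto (fun m : ℕ => ∫ p in (0 : ℝ)..(Real.pi / (2 * (m : ℝ)) *
    (1 / 2 + ((m ^ 2 : ℕ) : ℝ))), Real.exp (-4 * p ^ 2)) atTop (𝓝 (Real.sqrt Real.pi / 4)) := by
  have h1 : ∫ x in Ioi (0 : ℝ), Real.exp (-4 * x ^ 2) = Real.sqrt Real.pi / 4 := by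
    rw [integral_gaussian_Ioi, Real.sqrt_div Real.pi_pos.le,
      show (4 : ℝ) = 2 ^ 2 by norm_num, Real.sqrt_sq (by norm_num)]
    ring
  rw [← h1]
  apply intervalIntegral_tendsto_integral_Ioi
  · exact (integrable_exp_neg_mul_sq (by norm_num : (0 : ℝ) < 4)).integrableOn
  · have h2 : Tendsto (fun m : ℕ => Real.pi / 2 * (m : ℝ)) atTop atTop :=
      Tendsto.const_mul_atTop (by have := Real.pi_pos; positivity) tendsto_natCast_atTop_atTop
    refine tendsto_atTop_mono' _ ?_ h2
    filter_upwards [eventually_ge_atTop 1] with m hm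
    have hm' : (1 : ℝ) ≤ m := by exact_mod_cast hm
    have hpi := Real.pi_pos
    push_cast
    rw [div_mul_eq_mul_div, div_mul_eq_mul_div, div_le_div_iff₀ (by norm_num) (by positivity)]
    nlinarith

lemma exists_lower : ∃ R : ℝ, 1 ≤ R ∧ ∃ J : ℕ, (0.65 : ℝ) <
    8 * ((Real.pi / 2) / IF (R + 1 / 2)) *
      ∑ j ∈ Finset.range J, Real.exp (-4 * (pj R j ^ 2 + 1 / 4 + 4 * Cb / R)) := by
  have hpi := Real.pi_pos
  -- the limit
  have hl1 : Tendsto (fun m : ℕ => 8 * (m : ℝ) / (2 * m + (3 + Real.pi / 2))) atTop (𝓝 4) := by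
    have h1 : Tendsto (fun m : ℕ => 8 / (2 + (3 + Real.pi / 2) / (m : ℝ))) atTop (𝓝 (8 / (2 + 0))) := by
      refine Tendsto.div tendsto_const_nhds (tendsto_const_nhds.add ?_) (by norm_num)
      exact tendsto_const_nhds.div_atTop tendsto_natCast_atTop_atTop
    have h2 : (8 / (2 + 0) : ℝ) = 4 := by norm_num
    rw [h2] at h1
    refine h1.congr' ?_
    filter_upwards [eventually_ge_atTop 1] with m hm
    have hm' : (0 : ℝ) < m := by exact_mod_cast hm
    field_simp
  have hl2 : Tendsto (fun m : ℕ => Real.exp (-1 + -(16 * Cb) / (m : ℝ))) atTop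
      (𝓝 (Real.exp (-1 + 0))) := by
    refine (Real.continuous_exp.tendsto _).comp (tendsto_const_nhds.add ?_)
    exact tendsto_const_nhds.div_atTop tendsto_natCast_atTop_atTop
  have hl3 : Tendsto (fun m : ℕ => (∫ p in (0 : ℝ)..(Real.pi / (2 * (m : ℝ)) *
      (1 / 2 + ((m ^ 2 : ℕ) : ℝ))), Real.exp (-4 * p ^ 2)) - Real.pi / (4 * (m : ℝ))) atTop
      (𝓝 (Real.sqrt Real.pi / 4 - 0)) := by
    refine tendsto_gauss.sub ?_
    exact tendsto_const_nhds.div_atTop
      (Tendsto.const_mul_atTop (by norm_num) tendsto_natCast_atTop_atTop)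
  have hl := (hl1.mul hl2).mul hl3
  have hlim : (0.65 : ℝ) < 4 * Real.exp (-1 + 0) * (Real.sqrt Real.pi / 4 - 0) := by
    have h1 : (1.7724 : ℝ) < Real.sqrt Real.pi := by
      rw [Real.lt_sqrt (by norm_num)]
      have := Real.pi_gt_d4
      norm_num at this ⊢
      linarith
    have h2 : Real.exp (-1 + 0) = (Real.exp 1)⁻¹ := by rw [add_zero, Real.exp_neg]
    have h3 := Real.exp_one_lt_d9
    have h4 : (2.7182818286 : ℝ)⁻¹ < (Real.exp 1)⁻¹ := inv_strictAnti₀ (Real.exp_pos _) h3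
    rw [h2]
    have h5 : (0.367879 : ℝ) < (Real.exp 1)⁻¹ := lt_trans (by norm_num) h4
    nlinarith
  have hev := hl.eventually (lt_mem_nhds hlim)
  obtain ⟨m, hm, hm1⟩ := (hev.and (eventually_ge_atTop 1)).exists
  have hm1' : (1 : ℝ) ≤ (m : ℝ) := by exact_mod_cast hm1
  refine ⟨m, hm1', m ^ 2, lt_of_lt_of_le hm ?_⟩
  have hA : 0 ≤ (m : ℝ) + 1 / 2 := by linarith
  have hI := IF_pos hA
  have hI2 := IF_le hA
  have hs := sum_ge (m : ℝ) hm1' (m ^ 2)
  have e1 : ∑ j ∈ Finset.range (m ^ 2), Real.exp (-4 * (pj m j ^ 2 + 1 / 4 + 4 * Cb / m)) =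
      Real.exp (-1 + -(16 * Cb) / (m : ℝ)) * ∑ j ∈ Finset.range (m ^ 2), Real.exp (-4 * pj m j ^ 2) := by
    rw [Finset.mul_sum]
    refine Finset.sum_congr rfl fun j _ => ?_
    rw [← Real.exp_add]
    congr 1
    ring
  rw [e1]
  set S := ∑ j ∈ Finset.range (m ^ 2), Real.exp (-4 * pj m j ^ 2) with hS
  have hS0 : 0 ≤ S := Finset.sum_nonneg fun j _ => (Real.exp_pos _).le
  set X := Real.exp (-1 + -(16 * Cb) / (m : ℝ)) with hX
  have hX0 : 0 < X := Real.exp_pos _
  set G := (∫ p in (0 : ℝ)..(Real.pi / (2 * (m : ℝ)) *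
      (1 / 2 + ((m ^ 2 : ℕ) : ℝ))), Real.exp (-4 * p ^ 2)) - Real.pi / (4 * (m : ℝ)) with hG
  have h1 : 8 * (Real.pi / 2 / (2 * (m : ℝ) + (3 + Real.pi / 2))) ≤
      8 * (Real.pi / 2 / IF ((m : ℝ) + 1 / 2)) := by
    gcongr
    linarith
  calc 8 * (m : ℝ) / (2 * m + (3 + Real.pi / 2)) * X * G
      = 8 * (Real.pi / 2 / (2 * (m : ℝ) + (3 + Real.pi / 2))) * (X * (2 * m / Real.pi * G)) := by
        field_simp
    _ ≤ 8 * (Real.pi / 2 / (2 * (m : ℝ) + (3 + Real.pi / 2))) * (X * S) := by gcongr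
    _ ≤ 8 * (Real.pi / 2 / IF ((m : ℝ) + 1 / 2)) * (X * S) := by gcongr

/-- Some weight on `S³` has best constant larger than `0.65`. -/
theorem exists_weight : ∃ W : Sph 3 → ℝ, IsWeight W ∧ ENNReal.ofReal 0.65 < bestConst W := by
  obtain ⟨R, hR, J, h⟩ := exists_lower
  refine ⟨Wt (R + 1 / 2), isWeight_Wt (by linarith), ?_⟩
  refine lt_of_lt_of_le ?_ (bestConst_ge hR J)
  rw [ENNReal.ofReal_lt_ofReal_iff_of_nonneg (by norm_num)]
  exact h

end Pool.Agent.Lib.MP_4a15bf_mp
end
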