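import Mathlib

/-!
Definitions for problem MP_4a15bf_mp: the conformal Laplacian of the round sphere, the weighted
operators `Y_W = W^{-1/2} Y W^{-1/2}`, the trace of `e^{-t Y_W}` and the best constant `C(W)`.
-/

set_option autoImplicit false

namespace Pool.Agent.Lib.MP_4a15bf_mp

open MeasureTheory Set
open scoped ENNReal ContDiff Laplacian InnerProductSpace

/-- The Euclidean space `ℝ^{n+1}`. -/
abbrev E (n : ℕ) : Type := EuclideanSpace ℝ (Fin (n + 1))

/-- The round unit sphere `S^n ⊆ ℝ^{n+1}`. -/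
abbrev Sph (n : ℕ) : Type := Metric.sphere (0 : E n) 1

/-- The Riemannian (surface) measure `dv_g` of the round unit sphere `S^n`. -/
noncomputable def sigma (n : ℕ) : Measure (Sph n) := (volume : Measure (E n)).toSphere

lemma norm_inv_smul_mem {n : ℕ} {x : E n} (h : x ≠ 0) : ‖x‖⁻¹ • x ∈ Metric.sphere (0 : E n) 1 := by
  have : ‖x‖ ≠ 0 := norm_ne_zero_iff.2 h
  simp [norm_smul, this]

/-- The extension of a function `u` on `S^n` to a function on `ℝ^{n+1} ∖ {0}` that is constant on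
rays, `x ↦ u (x / |x|)` (with the value `0` at the origin). -/
noncomputable def extend {n : ℕ} (u : Sph n → ℝ) (x : E n) : ℝ :=
  open Classical in if h : x = 0 then 0 else u ⟨‖x‖⁻¹ • x, norm_inv_smul_mem h⟩

/-- `u` is a smooth function on `S^n`. -/
def IsSmooth {n : ℕ} (u : Sph n → ℝ) : Prop := ContDiffOn ℝ ∞ (extend u) {0}ᶜ

/-- The Laplace-Beltrami operator of the round sphere `S^n`: the Euclidean Laplacian of the
extension that is constant on rays, restricted to the sphere. -/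
noncomputable def laplaceBeltrami {n : ℕ} (u : Sph n → ℝ) (x : Sph n) : ℝ :=
  Δ (extend u) (x : E n)

/-- The conformal Laplacian `Y = -Δ + (n/2)(n/2 - 1)` of the round sphere `S^n`. -/
noncomputable def yamabe {n : ℕ} (u : Sph n → ℝ) (x : Sph n) : ℝ :=
  - laplaceBeltrami u x + ((n : ℝ) / 2) * ((n : ℝ) / 2 - 1) * u x

/-- The operator `Y_W = W^{-1/2} Y W^{-1/2}`. -/
noncomputable def yamabeW {n : ℕ} (W : Sph n → ℝ) (u : Sph n → ℝ) (x : Sph n) : ℝ :=
  (W x) ^ (-(1 / 2) : ℝ) * yamabe (fun y => (W y) ^ (-(1 / 2) : ℝ) * u y) x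

/-- The inner product of `L²(S^n, g)`. -/
noncomputable def inner2 {n : ℕ} (u v : Sph n → ℝ) : ℝ := ∫ x, u x * v x ∂(sigma n)

/-- `v 0, …, v (m-1)` are smooth functions on `S^n`, orthonormal in `L²(S^n, g)`. -/
def IsSmoothOrthonormal {n m : ℕ} (v : Fin m → Sph n → ℝ) : Prop :=
  (∀ i, IsSmooth (v i)) ∧ ∀ i j, inner2 (v i) (v j) = if i = j then 1 else 0

/-- The trace `Tr e^{-t Y_W}`, given by the variational principle
`Tr e^{-t H} = sup ∑ᵢ e^{-t ⟨vᵢ, H vᵢ⟩}`, the supremum being over all finite orthonormal families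
of smooth functions; the supremum is attained in the limit along a basis of eigenfunctions. -/
noncomputable def heatTrace {n : ℕ} (W : Sph n → ℝ) (t : ℝ) : ℝ≥0∞ :=
  ⨆ (m : ℕ) (v : Fin m → Sph n → ℝ) (_ : IsSmoothOrthonormal v),
    ∑ i, ENNReal.ofReal (Real.exp (-t * inner2 (v i) (yamabeW W (v i))))

/-- A weight on `S^n`: a smooth function `W > 0` with `∫ W^{n/2} dv_g = vol(S^n)`. -/
def IsWeight {n : ℕ} (W : Sph n → ℝ) : Prop :=
  IsSmooth W ∧ (∀ x, 0 < W x) ∧ ∫ x, (W x) ^ ((n : ℝ) / 2) ∂(sigma n) = (sigma n).real univ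

/-- `C(W) = sup_{t > 0} t^{n/2} Tr e^{-t Y_W}`. -/
noncomputable def bestConst {n : ℕ} (W : Sph n → ℝ) : ℝ≥0∞ :=
  ⨆ (t : ℝ) (_ : 0 < t), ENNReal.ofReal (t ^ ((n : ℝ) / 2)) * heatTrace W t

end Pool.Agent.Lib.MP_4a15bf_mp
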