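import Pool.Agent.Lib.MP_4a15bf_mp.h5.Defs

/-!
Rotation fields on the sphere and integration by parts.
-/

set_option autoImplicit false

namespace Pool.Agent.Lib.MP_4a15bf_mp

open MeasureTheory Set Filter Topology
open scoped ENNReal ContDiff RealInnerProductSpace Pointwise

variable {n : ℕ}

instance : IsFiniteMeasure (sigma n) := by unfold sigma; infer_instance

/-- A linear isometry of `ℝ^{n+1}` restricted to the sphere. -/
noncomputable def sphMap (A : E n ≃ₗᵢ[ℝ] E n) (x : Sph n) : Sph n :=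
  ⟨A x, by have := x.2; simp only [mem_sphere_iff_norm, sub_zero] at this ⊢; rw [A.norm_map, this]⟩

lemma continuous_sphMap (A : E n ≃ₗᵢ[ℝ] E n) : Continuous (sphMap A) :=
  Continuous.subtype_mk (A.continuous.comp continuous_subtype_val) _

/-- The surface measure is invariant under linear isometries. -/
lemma measurePreserving_sphMap (A : E n ≃ₗᵢ[ℝ] E n) :
    MeasurePreserving (sphMap A) (sigma n) (sigma n) := by
  refine ⟨(continuous_sphMap A).measurable, ?_⟩
  ext s hs
  have hm : Measurable (sphMap A) := (continuous_sphMap A).measurable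
  rw [Measure.map_apply hm hs, sigma, Measure.toSphere_apply' _ (hm hs),
    Measure.toSphere_apply' _ hs]
  congr 1
  have himg : ((↑) : Sph n → E n) '' (sphMap A ⁻¹' s) = A.symm '' (((↑) : Sph n → E n) '' s) := by
    ext y
    constructor
    · rintro ⟨x, hx, rfl⟩
      exact ⟨A x, ⟨sphMap A x, hx, rfl⟩, by simp⟩
    · rintro ⟨_, ⟨x, hx, rfl⟩, rfl⟩
      refine ⟨sphMap A.symm x, ?_, rfl⟩
      have : sphMap A (sphMap A.symm x) = x := by
        apply Subtype.ext
        simp [sphMap]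
      simpa [this] using hx
  have h2 : (Ioo (0 : ℝ) 1 • (((↑) : Sph n → E n) '' (sphMap A ⁻¹' s)) : Set (E n)) =
      A.symm '' (Ioo (0 : ℝ) 1 • (((↑) : Sph n → E n) '' s)) := by
    rw [himg]
    ext y
    simp only [Set.mem_smul, mem_image]
    constructor
    · rintro ⟨r, hr, _, ⟨z, hz, rfl⟩, rfl⟩
      exact ⟨r • z, ⟨r, hr, z, hz, rfl⟩, by simp⟩
    · rintro ⟨_, ⟨r, hr, z, hz, rfl⟩, rfl⟩
      exact ⟨r, hr, A.symm z, ⟨z, hz, rfl⟩, by simp⟩
  rw [h2]
  have h3 : A.symm '' (Ioo (0 : ℝ) 1 • (((↑) : Sph n → E n) '' s)) =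
      A ⁻¹' (Ioo (0 : ℝ) 1 • (((↑) : Sph n → E n) '' s)) := by
    ext y
    constructor
    · rintro ⟨z, hz, rfl⟩
      simpa using hz
    · intro hy
      exact ⟨A y, hy, by simp⟩
  rw [h3]
  exact A.measurePreserving.measure_preimage_emb A.toHomeomorph.measurableEmbedding _

/-- The flow of a linear vector field. -/
noncomputable def flow (J : E n →L[ℝ] E n) (θ : ℝ) : E n →L[ℝ] E n := NormedSpace.exp (θ • J)

lemma hasDerivAt_flow (J : E n →L[ℝ] E n) (v : E n) (θ : ℝ) :
    HasDerivAt (fun s => flow J s v) (J (flow J θ v)) θ := by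
  have h := hasDerivAt_exp_smul_const' (𝕂 := ℝ) J θ
  have h2 := h.clm_apply (hasDerivAt_const θ v)
  simpa [flow] using h2

lemma flow_zero (J : E n →L[ℝ] E n) (v : E n) : flow J 0 v = v := by
  have : (0 : ℝ) • J = 0 := by ext1 x; simp
  rw [flow, this, NormedSpace.exp_zero]
  rfl

lemma norm_flow {J : E n →L[ℝ] E n} (hJ : ∀ x, ⟪x, J x⟫ = 0) (θ : ℝ) (v : E n) :
    ‖flow J θ v‖ = ‖v‖ := by
  have h1 : ∀ s, HasDerivAt (fun s => ⟪flow J s v, flow J s v⟫) 0 s := by
    intro s
    have h := (hasDerivAt_flow J v s).inner ℝ (hasDerivAt_flow J v s)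
    rw [hJ, real_inner_comm, hJ, add_zero] at h
    exact h
  have h2 : ∀ s t, ⟪flow J s v, flow J s v⟫ = ⟪flow J t v, flow J t v⟫ :=
    is_const_of_deriv_eq_zero (fun s => (h1 s).differentiableAt) (fun s => (h1 s).deriv)
  have h3 := h2 θ 0
  rw [flow_zero, real_inner_self_eq_norm_sq, real_inner_self_eq_norm_sq] at h3
  nlinarith [norm_nonneg (flow J θ v), norm_nonneg v, sq_nonneg (‖flow J θ v‖ - ‖v‖),
    (sq_eq_sq₀ (norm_nonneg (flow J θ v)) (norm_nonneg v)).1 h3]

/-- The flow of a skew field as a linear isometry equivalence. -/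
noncomputable def flowIso (J : E n →L[ℝ] E n) (hJ : ∀ x, ⟪x, J x⟫ = 0) (θ : ℝ) :
    E n ≃ₗᵢ[ℝ] E n :=
  LinearIsometry.toLinearIsometryEquiv
    ⟨(flow J θ : E n →ₗ[ℝ] E n), fun v => norm_flow hJ θ v⟩ rfl

lemma flowIso_apply (J : E n →L[ℝ] E n) (hJ : ∀ x, ⟪x, J x⟫ = 0) (θ : ℝ) (v : E n) :
    flowIso J hJ θ v = flow J θ v := rfl

/-- The derivative of `F` along the linear vector field `J`. -/
noncomputable def Lie (J : E n →L[ℝ] E n) (F : E n → ℝ) (x : E n) : ℝ := fderiv ℝ F x (J x)

lemma contDiff_Lie (J : E n →L[ℝ] E n) {F : E n → ℝ} (hF : ContDiff ℝ ∞ F) :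
    ContDiff ℝ ∞ (Lie J F) := by
  unfold Lie
  exact (hF.fderiv_right (m := ∞) (by simp)).clm_apply J.contDiff

/-- The integral over the sphere of the derivative along a skew field vanishes. -/
lemma integral_Lie {J : E n →L[ℝ] E n} (hJ : ∀ x, ⟪x, J x⟫ = 0) {F : E n → ℝ}
    (hF : ContDiff ℝ ∞ F) : ∫ x : Sph n, Lie J F x ∂(sigma n) = 0 := by
  have hF1 : Continuous (fderiv ℝ F) := (hF.continuous_fderiv (by simp))
  have hconst : ∀ θ : ℝ, ∫ x : Sph n, F (flow J θ x) ∂(sigma n) = ∫ x : Sph n, F x ∂(sigma n) := by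
    intro θ
    have h := (measurePreserving_sphMap (flowIso J hJ θ)).integral_comp'
      (f := (Homeomorph.mk (Equiv.mk (sphMap (flowIso J hJ θ)) (sphMap (flowIso J hJ θ).symm)
        (fun x => by apply Subtype.ext; simp [sphMap]) (fun x => by apply Subtype.ext; simp [sphMap]))
        (continuous_sphMap _) (continuous_sphMap _)).toMeasurableEquiv) (fun x : Sph n => F x)
    simpa [sphMap, flowIso_apply] using h
  obtain ⟨M, hM⟩ : ∃ M : ℝ, ∀ x ∈ Metric.sphere (0 : E n) 1, ‖fderiv ℝ F x‖ ≤ M :=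
    (isCompact_sphere (0 : E n) 1).exists_bound_of_continuousOn hF1.continuousOn
  have hd := hasDerivAt_integral_of_dominated_loc_of_deriv_le (μ := sigma n) (x₀ := (0 : ℝ))
    (s := univ) (F := fun θ (x : Sph n) => F (flow J θ x))
    (F' := fun θ (x : Sph n) => fderiv ℝ F (flow J θ x) (J (flow J θ x)))
    (bound := fun _ => M * ‖J‖) univ_mem ?_ ?_ ?_ ?_ (integrable_const _) ?_
  · have h0 : HasDerivAt (fun θ : ℝ => ∫ x : Sph n, F (flow J θ x) ∂(sigma n)) 0 0 := by
      have : (fun θ : ℝ => ∫ x : Sph n, F (flow J θ x) ∂(sigma n)) =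
          fun _ => ∫ x : Sph n, F x ∂(sigma n) := funext hconst
      rw [this]
      exact hasDerivAt_const _ _
    have := hd.2.unique h0
    simpa [flow_zero, Lie] using this
  · refine Eventually.of_forall fun θ => ?_
    exact ((hF.continuous.comp (flow J θ).continuous).comp
      continuous_subtype_val).aestronglyMeasurable
  · have : Continuous fun x : Sph n => F (flow J 0 x) :=
      ((hF.continuous.comp (flow J 0).continuous).comp continuous_subtype_val)
    exact this.integrable_of_hasCompactSupport (HasCompactSupport.of_compactSpace _)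
  · have : Continuous fun x : Sph n => fderiv ℝ F (flow J 0 x) (J (flow J 0 x)) :=
      ((hF1.comp (flow J 0).continuous).clm_apply (J.continuous.comp (flow J 0).continuous)).comp
        continuous_subtype_val
    exact this.aestronglyMeasurable
  · refine Eventually.of_forall fun x θ _ => ?_
    have hx : ‖(x : E n)‖ = 1 := by simpa using x.2
    have hfx : ‖flow J θ x‖ = 1 := by rw [norm_flow hJ, hx]
    calc ‖fderiv ℝ F (flow J θ x) (J (flow J θ x))‖
        ≤ ‖fderiv ℝ F (flow J θ x)‖ * ‖J (flow J θ x)‖ := ContinuousLinearMap.le_opNorm _ _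
      _ ≤ M * (‖J‖ * ‖flow J θ x‖) := by
          apply mul_le_mul (hM _ (by simpa using hfx)) (J.le_opNorm _) (norm_nonneg _)
          exact (norm_nonneg _).trans (hM _ (by simpa using hfx))
      _ = M * ‖J‖ := by rw [hfx, mul_one]
  · refine Eventually.of_forall fun x θ _ => ?_
    have h1 : HasFDerivAt F (fderiv ℝ F (flow J θ x)) (flow J θ x) :=
      (hF.differentiable (by simp) _).hasFDerivAt
    exact h1.comp_hasDerivAt θ (hasDerivAt_flow J x θ)

end Pool.Agent.Lib.MP_4a15bf_mp
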